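import Pool.Agent.Y304.SP.Lap

/-!
The Kähler form on the surface: the proof of `StPsi`.
-/

set_option autoImplicit false

open Set Topology Filter
open scoped ContDiff

namespace Pool.Agent.Y304.SP

open Pool.Agent.Y184.SP

attribute [local fun_prop] analyticAt_fst analyticAt_snd

/-! ### The lattice -/

lemma sub_red_mem (x : ℂ) : x - red x ∈ Lam := ⟨round x.re, round x.im, by unfold red; ring⟩

lemma zero_mem : (0 : ℂ) ∈ Lam := ⟨0, 0, by simp⟩

lemma red_eq {x l : ℂ} (hl : l ∈ Lam) (h : ‖x - l‖ < 1 / 2) : red x = x - l := by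
  obtain ⟨m, n, rfl⟩ := hl
  have h1 := (Complex.abs_re_le_norm _).trans_lt h
  have h2 := (Complex.abs_im_le_norm _).trans_lt h
  rw [abs_lt] at h1 h2
  simp at h1 h2
  have e1 : round x.re = m := by
    rw [round_eq, Int.floor_eq_iff]
    constructor <;> linarith [h1.1, h1.2]
  have e2 : round x.im = n := by
    rw [round_eq, Int.floor_eq_iff]
    constructor <;> linarith [h2.1, h2.2]
  unfold red
  rw [e1, e2]
  ring

lemma red_mem {x : ℂ} (h : x ∈ Lam) : red x = 0 := by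
  rw [red_eq h (by simp), sub_self]

lemma mem_of_red {x : ℂ} (h : red x = 0) : x ∈ Lam := by
  have := sub_red_mem x
  rwa [h, sub_zero] at this

lemma red_small {x : ℂ} (h : ‖x‖ < 1 / 2) : red x = x := by
  rw [red_eq zero_mem (by simpa using h), sub_zero]

lemma not_mem_of_small {x : ℂ} (h : ‖x‖ < 1 / 2) (h0 : x ≠ 0) : x ∉ Lam := by
  intro hx
  exact h0 ((red_small h).symm.trans (red_mem hx))

lemma isOpen_compl : IsOpen {x : ℂ | x ∉ Lam} := by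
  rw [Metric.isOpen_iff]
  intro x hx
  have hx0 : red x ≠ 0 := fun h => hx (mem_of_red h)
  refine ⟨min (1 / 2) ‖red x‖, lt_min (by norm_num) (norm_pos_iff.2 hx0), ?_⟩
  intro y hy hyL
  rw [Metric.mem_ball, dist_eq_norm, norm_sub_rev, lt_min_iff] at hy
  have := red_eq hyL hy.1
  rw [this] at hy
  exact lt_irrefl _ hy.2

lemma red_far {x : ℂ} (h : 1 / 4 < ‖red x‖) : ∀ᶠ y in 𝓝 x, 1 / 4 < ‖red y‖ := by
  have hb : Metric.ball x (min (1 / 4) (‖red x‖ - 1 / 4)) ∈ 𝓝 x :=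
    Metric.ball_mem_nhds _ (lt_min (by norm_num) (by linarith))
  filter_upwards [hb] with y hy
  rw [Metric.mem_ball, dist_eq_norm, norm_sub_rev, lt_min_iff] at hy
  by_contra hc
  push Not at hc
  have e : x - (y - red y) = (x - y) + red y := by ring
  have h1 : ‖x - (y - red y)‖ ≤ ‖x - y‖ + ‖red y‖ := by rw [e]; exact norm_add_le _ _
  have h2 := red_eq (sub_red_mem y) (x := x) (by linarith [hy.1])
  rw [← h2] at h1
  linarith [hy.2]

lemma isOpen_W : IsOpen W :=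
  (isOpen_compl.preimage continuous_fst).inter (isOpen_ne.preimage continuous_snd)

lemma tr_open (j : Fin 5) {z : E} (h : tr j z ∈ W) : ∀ᶠ t in 𝓝 z, tr j t ∈ W := by
  have hc : ContinuousAt (tr j) z := by
    match j with
    | 0 => exact continuousAt_id
    | 1 =>
      have h2 : z.2 ≠ 0 := fun h0 => h.2 (by show z.2⁻¹ = 0; rw [h0, inv_zero])
      exact continuousAt_fst.prodMk (continuousAt_snd.inv₀ h2)
    | 2 =>
      have : Continuous (tr 2) := by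
        show Continuous fun z : E => (z.1 * z.2, z.2 + z.1 * z.2)
        fun_prop
      exact this.continuousAt
    | 3 =>
      have : Continuous (tr 3) := by
        show Continuous fun z : E => (z.1 * z.2, z.1 * z.2 ^ 2 + z.1 * z.2)
        fun_prop
      exact this.continuousAt
    | 4 =>
      have : Continuous (tr 4) := by
        show Continuous fun z : E => (z.1, z.1 ^ 2 * z.2 + z.1)
        fun_prop
      exact this.continuousAt
  exact hc.eventually (isOpen_W.mem_nhds h)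

/-! ### Auxiliary lemmas -/

lemma line1 (z v : E) : HasDerivAt (fun ζ : ℂ => (z + ζ • v).1) v.1 0 := by
  simpa using ((hasDerivAt_id (0 : ℂ)).mul_const v.1).const_add z.1

lemma line2 (z v : E) : HasDerivAt (fun ζ : ℂ => (z + ζ • v).2) v.2 0 := by
  simpa using ((hasDerivAt_id (0 : ℂ)).mul_const v.2).const_add z.2

lemma le2 {F : Type} [NormedAddCommGroup F] [NormedSpace ℝ F] {f : F → ℝ} {z : F}
    (h : ContDiffAt ℝ ∞ f z) : ContDiffAt ℝ 2 f z := h.of_le ENat.LEInfty.out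

lemma lev_harm {f g : E → ℂ} {z v : E} (a b : ℝ) (hf : AnalyticAt ℂ f z) (hg : AnalyticAt ℂ g z)
    (hf0 : f z ≠ 0) (hg0 : g z ≠ 0) :
    lev (fun t => a * Real.log (‖f t‖ ^ 2) + b * Real.log (‖g t‖ ^ 2)) z v = 0 := by
  have h1 := le2 (cd_log hf hf0)
  have h2 := le2 (cd_log hg hg0)
  rw [lev_add (contDiffAt_const.mul h1) (contDiffAt_const.mul h2), lev_mul h1, lev_mul h2,
    lev_log hf hf0, lev_log hg hg0]
  ring

lemma lev_logsum_nonneg {f g : E → ℂ} {z v : E} (hf : AnalyticAt ℂ f z)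
    (hg : AnalyticAt ℂ g z) (h0 : f z ≠ 0 ∨ g z ≠ 0) :
    0 ≤ lev (fun t => Real.log (‖f t‖ ^ 2 + ‖g t‖ ^ 2)) z v := by
  have hl : AnalyticAt ℂ (fun ζ : ℂ => z + ζ • v) 0 := by fun_prop
  have h1 : AnalyticAt ℂ (fun ζ : ℂ => f (z + ζ • v)) 0 :=
    AnalyticAt.comp (g := f) (by simpa using hf) hl
  have h2 : AnalyticAt ℂ (fun ζ : ℂ => g (z + ζ • v)) 0 :=
    AnalyticAt.comp (g := g) (by simpa using hg) hl
  rw [lev_logsum hf hg h0 h1.differentiableAt.hasDerivAt h2.differentiableAt.hasDerivAt]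
  positivity

lemma potAt_of {Φ : E → ℝ} {j : Fin 5} {z : E} {ρ : E → ℝ} {f g : E → ℂ} {a b : ℝ}
    (h1 : SmAt ρ z) (hf : ∀ t, AnalyticAt ℂ f t) (hg : ∀ t, AnalyticAt ℂ g t)
    (h2 : ∀ᶠ t in 𝓝 z, tr j t ∈ W → f t ≠ 0 ∧ g t ≠ 0 ∧
      ρ t - Φ (tr j t) = a * Real.log (‖f t‖ ^ 2) + b * Real.log (‖g t‖ ^ 2)) :
    PotAt Φ j z ρ := by
  refine ⟨h1, ?_⟩
  filter_upwards [h2.eventually_nhds] with z' hz' hW v
  have h3 : (fun t => ρ t - Φ (tr j t)) =ᶠ[𝓝 z']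
      fun t => a * Real.log (‖f t‖ ^ 2) + b * Real.log (‖g t‖ ^ 2) := by
    filter_upwards [hz', tr_open j hW] with t h h'
    exact (h h').2.2
  rw [lev_congr h3]
  have h4 := hz'.self_of_nhds hW
  exact lev_harm a b (hf z') (hg z') h4.1 h4.2.1

lemma lap_h {G h : ℂ → ℝ} {c : ℝ} (hG : IsGreen G h c) {x : ℂ} (hx : ‖x‖ < 1 / 2) :
    Laplacian.laplacian h x = -c := by
  have key : ∀ x : ℂ, ‖x‖ < 1 / 2 → x ≠ 0 → Laplacian.laplacian h x = -c := by
    intro x hx hx0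
    have hL : x ∉ Lam := not_mem_of_small hx hx0
    set z : E := (x, 0)
    set v : E := (1, 0)
    have h1 : lev (fun t => h t.1) z v = Laplacian.laplacian h x * ‖(1 : ℂ)‖ ^ 2 :=
      lev_h (q := fun t : E => t.1) (z := z) (v := v) (le2 (hG.smooth_h x hx)) analyticAt_fst
        (line1 z v)
    have h2 : lev (fun t => G t.1) z v = Laplacian.laplacian G x * ‖(1 : ℂ)‖ ^ 2 :=
      lev_h (q := fun t : E => t.1) (z := z) (v := v) (le2 (hG.smooth x hL)) analyticAt_fst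
        (line1 z v)
    have hlog : AnalyticAt ℂ (fun t : E => t.1) z := analyticAt_fst
    have h3 : (fun t : E => h t.1) =ᶠ[𝓝 z] fun t => G t.1 - Real.log (‖t.1‖ ^ 2) := by
      have hn : ∀ᶠ t : E in 𝓝 z, ‖t.1‖ < 1 / 2 ∧ t.1 ≠ 0 := by
        have o1 : IsOpen ({t : E | ‖t.1‖ < 1 / 2} ∩ {t : E | t.1 ≠ 0}) :=
          (isOpen_lt (by fun_prop) (by fun_prop)).inter (isOpen_ne.preimage continuous_fst)
        exact o1.mem_nhds ⟨hx, hx0⟩
      filter_upwards [hn] with t ht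
      rw [hG.eq t.1 ht.1 ht.2]
      ring
    have h4 : ContDiffAt ℝ 2 (fun t : E => G t.1) z :=
      ContDiffAt.comp z (le2 (hG.smooth x hL)) contDiffAt_fst
    rw [lev_congr h3, lev_sub h4 (le2 (cd_log hlog hx0)), h2, lev_log hlog hx0,
      hG.lap x hL] at h1
    simpa using h1.symm
  rcases eq_or_ne x 0 with rfl | hx0
  · have hc : ContinuousAt (fun x => Laplacian.laplacian h x) 0 := by
      have e : (fun x => Laplacian.laplacian h x) = fun x =>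
          fderiv ℝ (fderiv ℝ h) x 1 1 + fderiv ℝ (fderiv ℝ h) x Complex.I Complex.I := by
        funext x; exact lap_eq h x
      rw [e]
      have h1 : ContDiffAt ℝ 2 h 0 := le2 (hG.smooth_h 0 hx)
      have h2 : ContDiffAt ℝ 1 (fderiv ℝ h) 0 := h1.fderiv_right (by norm_num)
      have h3 : ContDiffAt ℝ 0 (fderiv ℝ (fderiv ℝ h)) 0 := h2.fderiv_right (by norm_num)
      have h4 := h3.continuousAt
      exact ((h4.clm_apply continuousAt_const).clm_apply continuousAt_const).add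
        ((h4.clm_apply continuousAt_const).clm_apply continuousAt_const)
    have h1 : Tendsto (fun x => Laplacian.laplacian h x) (𝓝[≠] (0 : ℂ))
        (𝓝 (Laplacian.laplacian h 0)) := hc.tendsto.mono_left nhdsWithin_le_nhds
    have h2 : Tendsto (fun x => Laplacian.laplacian h x) (𝓝[≠] (0 : ℂ)) (𝓝 (-c)) := by
      refine tendsto_const_nhds.congr' ?_
      have hb : ∀ᶠ y : ℂ in 𝓝 (0 : ℂ), ‖y‖ < 1 / 2 :=
        (isOpen_lt (by fun_prop) (by fun_prop)).mem_nhds (by simp)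
      filter_upwards [self_mem_nhdsWithin, nhdsWithin_le_nhds hb] with y hy hy'
      exact (key y hy' hy).symm
    exact tendsto_nhds_unique h1 h2
  · exact key x hx hx0

/-! ### The core estimate -/

/-- the logarithmic part of the potential, for `x` near `0` -/
noncomputable def Om0 (t : E) : ℝ := Real.log (‖t.1‖ ^ 2 + ‖t.2 - t.1‖ ^ 2) +
  Real.log (‖t.2 - t.1‖ ^ 2 + ‖t.1 ^ 2‖ ^ 2) - 2 * Real.log (1 + ‖t.2‖ ^ 2)

/-- the same function in the coordinates `(x, 1 / y)` -/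
noncomputable def Om1 (t : E) : ℝ := Real.log (‖t.1 * t.2‖ ^ 2 + ‖1 - t.1 * t.2‖ ^ 2) +
  Real.log (‖1 - t.1 * t.2‖ ^ 2 + ‖t.1 ^ 2 * t.2‖ ^ 2) - 2 * Real.log (1 + ‖t.2‖ ^ 2)

lemma log_fac {a u v : ℂ} (ha : a ≠ 0) (h : u ≠ 0 ∨ v ≠ 0) :
    Real.log (‖a * u‖ ^ 2 + ‖a * v‖ ^ 2) = Real.log (‖a‖ ^ 2) + Real.log (‖u‖ ^ 2 + ‖v‖ ^ 2) := by
  have h1 : 0 < ‖u‖ ^ 2 + ‖v‖ ^ 2 := by
    rcases h with h | h
    · have := norm_pos_iff.2 h; positivity
    · have := norm_pos_iff.2 h; positivity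
  have h2 : 0 < ‖a‖ ^ 2 := by have := norm_pos_iff.2 ha; positivity
  rw [← Real.log_mul h2.ne' h1.ne']
  congr 1
  rw [norm_mul, norm_mul]
  ring

lemma Om_inv {x y : ℂ} (hy : y ≠ 0) : Om0 (x, y) = Om1 (x, y⁻¹) := by
  have e1 : Real.log (‖x‖ ^ 2 + ‖y - x‖ ^ 2) = Real.log (‖y‖ ^ 2) +
      Real.log (‖x * y⁻¹‖ ^ 2 + ‖1 - x * y⁻¹‖ ^ 2) := by
    rw [← log_fac hy]
    · congr 4
      · field_simp
      · congr 1; field_simp
    · by_contra hc
      push Not at hc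
      rw [hc.1] at hc
      simp at hc
  have e2 : Real.log (‖y - x‖ ^ 2 + ‖x ^ 2‖ ^ 2) = Real.log (‖y‖ ^ 2) +
      Real.log (‖1 - x * y⁻¹‖ ^ 2 + ‖x ^ 2 * y⁻¹‖ ^ 2) := by
    rw [← log_fac hy]
    · congr 4
      · field_simp
      · congr 1; field_simp
    · by_contra hc
      push Not at hc
      have h1 : x ^ 2 * y⁻¹ = x * (x * y⁻¹) := by ring
      have h2 : x * y⁻¹ = 1 := by linear_combination -hc.1
      rw [h1, h2, mul_one] at hc
      rw [hc.2] at h2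
      simp at h2
  have e3 : Real.log (1 + ‖y‖ ^ 2) = Real.log (‖y‖ ^ 2) + Real.log (1 + ‖y⁻¹‖ ^ 2) := by
    have h1 := log_fac hy (u := y⁻¹) (v := 1) (Or.inr one_ne_zero)
    rw [mul_inv_cancel₀ hy, mul_one, norm_one, one_pow] at h1
    rw [h1, add_comm (‖y⁻¹‖ ^ 2)]
  show Real.log (‖x‖ ^ 2 + ‖y - x‖ ^ 2) + Real.log (‖y - x‖ ^ 2 + ‖x ^ 2‖ ^ 2) -
    2 * Real.log (1 + ‖y‖ ^ 2) = Real.log (‖x * y⁻¹‖ ^ 2 + ‖1 - x * y⁻¹‖ ^ 2) +
    Real.log (‖1 - x * y⁻¹‖ ^ 2 + ‖x ^ 2 * y⁻¹‖ ^ 2) - 2 * Real.log (1 + ‖y⁻¹‖ ^ 2)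
  rw [e1, e2, e3]
  ring

lemma cd_Om0 {t : E} (h : t ≠ 0) : ContDiffAt ℝ ∞ Om0 t := by
  have h1 : t.1 ≠ 0 ∨ t.2 - t.1 ≠ 0 := by
    by_contra hc
    push Not at hc
    obtain ⟨hc1, hc2⟩ := hc
    rw [hc1, sub_zero] at hc2
    exact h (Prod.ext hc1 hc2)
  refine ContDiffAt.sub (ContDiffAt.add ?_ ?_) (contDiffAt_const.mul ?_)
  · exact cd_logsum (f := fun t : E => t.1) (g := fun t : E => t.2 - t.1) (by fun_prop)
      (by fun_prop) h1
  · refine cd_logsum (f := fun t : E => t.2 - t.1) (g := fun t : E => t.1 ^ 2) (by fun_prop)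
      (by fun_prop) ?_
    rcases h1 with h1 | h1
    · exact Or.inr (pow_ne_zero 2 h1)
    · exact Or.inl h1
  · exact cd_log1 (f := fun t : E => t.2) (by fun_prop)

lemma cd_Om1 (t : E) : ContDiffAt ℝ ∞ Om1 t := by
  refine ContDiffAt.sub (ContDiffAt.add ?_ ?_) (contDiffAt_const.mul ?_)
  · refine cd_logsum (f := fun t : E => t.1 * t.2) (g := fun t : E => 1 - t.1 * t.2)
      (by fun_prop) (by fun_prop) ?_
    by_contra hc
    push Not at hc
    rw [hc.1] at hc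
    simp at hc
  · refine cd_logsum (f := fun t : E => 1 - t.1 * t.2) (g := fun t : E => t.1 ^ 2 * t.2)
      (by fun_prop) (by fun_prop) ?_
    by_contra hc
    push Not at hc
    have h1 : t.1 ^ 2 * t.2 = t.1 * (t.1 * t.2) := by ring
    have h2 : t.1 * t.2 = 1 := by linear_combination -hc.1
    rw [h1, h2, mul_one] at hc
    rw [hc.2] at h2
    simp at h2
  · exact cd_log1 (f := fun t : E => t.2) (by fun_prop)

lemma lev_Om0 {t : E} (h : t ≠ 0) (v : E) :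
    -(8 * (‖v.2‖ ^ 2 / (1 + ‖t.2‖ ^ 2) ^ 2)) ≤ lev Om0 t v := by
  have h1 : t.1 ≠ 0 ∨ t.2 - t.1 ≠ 0 := by
    by_contra hc
    push Not at hc
    obtain ⟨hc1, hc2⟩ := hc
    rw [hc1, sub_zero] at hc2
    exact h (Prod.ext hc1 hc2)
  have h2 : t.2 - t.1 ≠ 0 ∨ t.1 ^ 2 ≠ 0 := by
    rcases h1 with h1 | h1
    · exact Or.inr (pow_ne_zero 2 h1)
    · exact Or.inl h1
  have a1 : AnalyticAt ℂ (fun t : E => t.1) t := by fun_prop
  have a2 : AnalyticAt ℂ (fun t : E => t.2 - t.1) t := by fun_prop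
  have a3 : AnalyticAt ℂ (fun t : E => t.1 ^ 2) t := by fun_prop
  have a4 : AnalyticAt ℂ (fun t : E => t.2) t := by fun_prop
  have c1 := le2 (cd_logsum a1 a2 h1)
  have c2 := le2 (cd_logsum a2 a3 h2)
  have c3 := le2 (cd_log1 a4)
  have n1 := lev_logsum_nonneg (v := v) a1 a2 h1
  have n2 := lev_logsum_nonneg (v := v) a2 a3 h2
  have n3 := lev_log1 (v := v) a4 (line2 t v)
  have e : lev Om0 t v = _ := lev_sub (c1.add c2) (contDiffAt_const.mul c3) v (g := fun t =>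
    2 * Real.log (1 + ‖t.2‖ ^ 2))
  rw [e, lev_mul c3, n3]
  have e2 := lev_add c1 c2 v
  rw [e2, mul_div_assoc]
  linarith

lemma lev_Om1 (t : E) (v : E) :
    -(8 * (‖v.2‖ ^ 2 / (1 + ‖t.2‖ ^ 2) ^ 2)) ≤ lev Om1 t v := by
  have h1 : t.1 * t.2 ≠ 0 ∨ 1 - t.1 * t.2 ≠ 0 := by
    by_contra hc
    push Not at hc
    rw [hc.1] at hc
    simp at hc
  have h2 : 1 - t.1 * t.2 ≠ 0 ∨ t.1 ^ 2 * t.2 ≠ 0 := by
    by_contra hc
    push Not at hc
    have h1 : t.1 ^ 2 * t.2 = t.1 * (t.1 * t.2) := by ring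
    have h2 : t.1 * t.2 = 1 := by linear_combination -hc.1
    rw [h1, h2, mul_one] at hc
    rw [hc.2] at h2
    simp at h2
  have a1 : AnalyticAt ℂ (fun t : E => t.1 * t.2) t := by fun_prop
  have a2 : AnalyticAt ℂ (fun t : E => 1 - t.1 * t.2) t := by fun_prop
  have a3 : AnalyticAt ℂ (fun t : E => t.1 ^ 2 * t.2) t := by fun_prop
  have a4 : AnalyticAt ℂ (fun t : E => t.2) t := by fun_prop
  have c1 := le2 (cd_logsum a1 a2 h1)
  have c2 := le2 (cd_logsum a2 a3 h2)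
  have c3 := le2 (cd_log1 a4)
  have n1 := lev_logsum_nonneg (v := v) a1 a2 h1
  have n2 := lev_logsum_nonneg (v := v) a2 a3 h2
  have n3 := lev_log1 (v := v) a4 (line2 t v)
  have e : lev Om1 t v = _ := lev_sub (c1.add c2) (contDiffAt_const.mul c3) v (g := fun t =>
    2 * Real.log (1 + ‖t.2‖ ^ 2))
  rw [e, lev_mul c3, n3]
  have e2 := lev_add c1 c2 v
  rw [e2, mul_div_assoc]
  linarith

lemma nm_nonneg (z v : E) : 0 ≤ nm z v := by unfold nm; positivity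

lemma nm_pos (z : E) {v : E} (h : v ≠ 0) : 0 < nm z v := by
  unfold nm
  by_cases h1 : v.1 = 0
  · have h2 : v.2 ≠ 0 := fun h2 => h (Prod.ext h1 h2)
    have := norm_pos_iff.2 h2
    positivity
  · have := norm_pos_iff.2 h1
    positivity

lemma nm_inv {z : E} (h : z.2 ≠ 0) (v : E) :
    nm (z.1, z.2⁻¹) (v.1, -(v.2 / z.2 ^ 2)) = nm z v := by
  unfold nm
  have := norm_pos_iff.2 h
  simp only [norm_neg, norm_div, norm_pow, norm_inv]
  congr 1
  field_simp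
  ring

/-- the compact set -/
def Kc : Set E := (Metric.closedBall (0 : ℂ) (1 / 4) \ Metric.ball (0 : ℂ) (1 / 8)) ×ˢ
  Metric.closedBall (0 : ℂ) 1

lemma isCompact_Kc : IsCompact Kc :=
  ((isCompact_closedBall _ _).diff Metric.isOpen_ball).prod (isCompact_closedBall _ _)

lemma cpt {b : E → ℝ} (hb : ∀ t ∈ Kc, ContDiffAt ℝ ∞ b t) : ∃ M : ℝ, 0 ≤ M ∧
    ∀ t ∈ Kc, ∀ v, |lev b t v| ≤ M * nm t v := by
  have hcont : ContinuousOn (fun t => fderiv ℝ (fderiv ℝ b) t) Kc := by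
    intro t ht
    have h2 : ContDiffAt ℝ 1 (fderiv ℝ b) t := (le2 (hb t ht)).fderiv_right (by norm_num)
    have h3 : ContDiffAt ℝ 0 (fderiv ℝ (fderiv ℝ b)) t := h2.fderiv_right (by norm_num)
    exact h3.continuousAt.continuousWithinAt
  have hnorm : Continuous (fun B : E →L[ℝ] E →L[ℝ] ℝ => ‖B‖) :=
    continuous_norm (E := E →L[ℝ] E →L[ℝ] ℝ)
  obtain ⟨C, hC⟩ := isCompact_Kc.exists_bound_of_continuousOn (hnorm.comp_continuousOn hcont)
  simp only [Function.comp_def, norm_norm] at hC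
  refine ⟨8 * |C|, by positivity, fun t ht v => ?_⟩
  have hC' : ‖fderiv ℝ (fderiv ℝ b) t‖ ≤ |C| :=
    (Real.le_norm_self _).trans ((hC t ht).trans (le_abs_self C))
  set B := fderiv ℝ (fderiv ℝ b) t with hB
  have hq : ∀ w : E, ‖w‖ = ‖v‖ → |B w w| ≤ |C| * ‖v‖ ^ 2 := by
    intro w hw
    calc |B w w| ≤ ‖B‖ * ‖w‖ * ‖w‖ := B.le_opNorm₂ w w
      _ ≤ |C| * ‖w‖ * ‖w‖ := by gcongr
      _ = |C| * ‖v‖ ^ 2 := by rw [hw]; ring
  have h1 := hq v rfl
  have h2 := hq (Complex.I • v) (by rw [norm_smul, Complex.norm_I, one_mul])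
  have hv : ‖v‖ ^ 2 ≤ ‖v.1‖ ^ 2 + ‖v.2‖ ^ 2 := by
    rw [Prod.norm_def]
    rcases max_cases ‖v.1‖ ‖v.2‖ with h | h <;> rw [h.1] <;> nlinarith [sq_nonneg ‖v.1‖, sq_nonneg ‖v.2‖]
  have ht2 : ‖t.2‖ ≤ 1 := by simpa using ht.2
  have h3 : ‖v.2‖ ^ 2 ≤ 4 * (‖v.2‖ ^ 2 / (1 + ‖t.2‖ ^ 2) ^ 2) := by
    rw [← mul_div_assoc, le_div_iff₀ (by positivity)]
    have hs : ‖t.2‖ ^ 2 ≤ 1 := by nlinarith [norm_nonneg t.2]
    have : (1 + ‖t.2‖ ^ 2) ^ 2 ≤ 4 := by nlinarith [sq_nonneg ‖t.2‖]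
    nlinarith [sq_nonneg ‖v.2‖]
  have h4 : ‖v‖ ^ 2 ≤ 4 * nm t v := by
    unfold nm
    nlinarith [sq_nonneg ‖v.1‖]
  rw [lev_eq (le2 (hb t ht))]
  calc |B v v + B (Complex.I • v) (Complex.I • v)| ≤ |B v v| + |B (Complex.I • v) (Complex.I • v)| :=
        abs_add_le _ _
    _ ≤ |C| * ‖v‖ ^ 2 + |C| * ‖v‖ ^ 2 := add_le_add h1 h2
    _ = 2 * |C| * ‖v‖ ^ 2 := by ring
    _ ≤ 2 * |C| * (4 * nm t v) := by gcongr
    _ = 8 * |C| * nm t v := by ring

/-- the functions with the bump function -/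
noncomputable def b0 (t : E) : ℝ := bump t.1 * Om0 t

noncomputable def b1 (t : E) : ℝ := bump t.1 * Om1 t

lemma cd_bump (t : E) : ContDiffAt ℝ ∞ (fun t : E => bump t.1) t :=
  (bump.contDiff.comp contDiff_fst).contDiffAt

lemma cd_b0 {t : E} (h : t ≠ 0) : ContDiffAt ℝ ∞ b0 t := (cd_bump t).mul (cd_Om0 h)

lemma cd_b1 (t : E) : ContDiffAt ℝ ∞ b1 t := (cd_bump t).mul (cd_Om1 t)

lemma bump_one {x : ℂ} (h : ‖x‖ < 1 / 8) : bump x = 1 :=
  bump.one_of_mem_closedBall (by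
    rw [Metric.mem_closedBall, dist_zero_right]; exact h.le)

lemma bump_zero {x : ℂ} (h : 1 / 4 < ‖x‖) : bump x = 0 :=
  bump.zero_of_le_dist (by rw [dist_zero_right]; exact h.le)

lemma b_inv {t : E} (h : t.2 ≠ 0) (v : E) :
    lev b0 t v = lev b1 (t.1, t.2⁻¹) (v.1, -(v.2 / t.2 ^ 2)) := by
  have h1 : b0 =ᶠ[𝓝 t] fun t => b1 (t.1, t.2⁻¹) := by
    have hn : ∀ᶠ s : E in 𝓝 t, s.2 ≠ 0 := (isOpen_ne.preimage continuous_snd).mem_nhds h
    filter_upwards [hn] with s hs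
    show bump s.1 * Om0 s = bump s.1 * Om1 (s.1, s.2⁻¹)
    rw [← Om_inv hs]
  rw [lev_congr h1]
  refine lev_comp (T := fun t : E => (t.1, t.2⁻¹)) (le2 (cd_b1 _)) ?_ ?_
  · have : AnalyticAt ℂ (fun t : E => t.2) t := by fun_prop
    exact analyticAt_fst.prod (this.inv h)
  · have h3 : HasDerivAt (fun ζ : ℂ => ((t + ζ • v).2)⁻¹) (-(v.2 / t.2 ^ 2)) 0 := by
      refine ((line2 t v).fun_inv (by simpa using h)).congr_deriv ?_
      simp [neg_div]
    exact (line1 t v).prodMk h3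

lemma b_inv' {t : E} (h : t.2 ≠ 0) (h1 : t.1 ≠ 0) (v : E) :
    lev b1 t v = lev b0 (t.1, t.2⁻¹) (v.1, -(v.2 / t.2 ^ 2)) := by
  have h2 : b1 =ᶠ[𝓝 t] fun t => b0 (t.1, t.2⁻¹) := by
    have hn : ∀ᶠ s : E in 𝓝 t, s.2 ≠ 0 := (isOpen_ne.preimage continuous_snd).mem_nhds h
    filter_upwards [hn] with s hs
    show bump s.1 * Om1 s = bump s.1 * Om0 (s.1, s.2⁻¹)
    rw [Om_inv (inv_ne_zero hs), inv_inv]
  rw [lev_congr h2]
  refine lev_comp (T := fun t : E => (t.1, t.2⁻¹)) (le2 (cd_b0 ?_)) ?_ ?_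
  · intro hc
    exact h1 (congrArg Prod.fst hc)
  · have : AnalyticAt ℂ (fun t : E => t.2) t := by fun_prop
    exact analyticAt_fst.prod (this.inv h)
  · have h3 : HasDerivAt (fun ζ : ℂ => ((t + ζ • v).2)⁻¹) (-(v.2 / t.2 ^ 2)) 0 := by
      refine ((line2 t v).fun_inv (by simpa using h)).congr_deriv ?_
      simp [neg_div]
    exact (line1 t v).prodMk h3

/-- the core estimate -/
lemma core : ∃ M : ℝ, 0 ≤ M ∧ (∀ t : E, t ≠ 0 → ∀ v, -(M * nm t v) ≤ lev b0 t v) ∧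
    ∀ t v : E, -(M * nm t v) ≤ lev b1 t v := by
  have hK0 : ∀ t ∈ Kc, t.1 ≠ 0 := by
    intro t ht h0
    have := ht.1.2
    rw [h0] at this
    simp at this
  obtain ⟨M0, hM0, H0⟩ := cpt (b := b0) (fun t ht => cd_b0 fun h => hK0 t ht (by rw [h]; rfl))
  obtain ⟨M1, hM1, H1⟩ := cpt (b := b1) (fun t _ => cd_b1 t)
  refine ⟨M0 + M1 + 8, by positivity, ?_, ?_⟩
  · intro t ht v
    have hnm := nm_nonneg t v
    rcases lt_or_ge ‖t.1‖ (1 / 8) with h | h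
    · have h1 : b0 =ᶠ[𝓝 t] Om0 := by
        have hn : ∀ᶠ s : E in 𝓝 t, ‖s.1‖ < 1 / 8 := (isOpen_lt (by fun_prop) (by fun_prop)).mem_nhds h
        filter_upwards [hn] with s hs
        show bump s.1 * Om0 s = Om0 s
        rw [bump_one hs, one_mul]
      rw [lev_congr h1]
      have h2 := lev_Om0 ht v
      have h3 : ‖v.2‖ ^ 2 / (1 + ‖t.2‖ ^ 2) ^ 2 ≤ nm t v := by
        unfold nm; nlinarith [sq_nonneg ‖v.1‖]
      nlinarith
    rcases lt_or_ge (1 / 4) ‖t.1‖ with h' | h'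
    · have h1 : b0 =ᶠ[𝓝 t] fun _ => 0 := by
        have hn : ∀ᶠ s : E in 𝓝 t, 1 / 4 < ‖s.1‖ := (isOpen_lt (by fun_prop) (by fun_prop)).mem_nhds h'
        filter_upwards [hn] with s hs
        show bump s.1 * Om0 s = 0
        rw [bump_zero hs, zero_mul]
      rw [lev_congr h1]
      have : lev (fun _ => 0) t v = 0 := by
        unfold lev; rw [lap_eq]; simp
      rw [this]
      have : 0 ≤ (M0 + M1 + 8) * nm t v := by positivity
      linarith
    rcases le_or_gt ‖t.2‖ 1 with h2 | h2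
    · have h3 := H0 t ⟨⟨by simpa using h', by simpa using h⟩, by simpa using h2⟩ v
      have h4 := (abs_le.1 h3).1
      nlinarith
    · have h20 : t.2 ≠ 0 := by rintro h0; rw [h0] at h2; norm_num at h2
      have h3 := H1 (t.1, t.2⁻¹) ⟨⟨by simpa using h', by simpa using h⟩, by
        simpa using inv_le_one_of_one_le₀ h2.le⟩ (v.1, -(v.2 / t.2 ^ 2))
      rw [nm_inv h20, ← b_inv h20] at h3
      have h4 := (abs_le.1 h3).1
      nlinarith
  · intro t v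
    have hnm := nm_nonneg t v
    rcases lt_or_ge ‖t.1‖ (1 / 8) with h | h
    · have h1 : b1 =ᶠ[𝓝 t] Om1 := by
        have hn : ∀ᶠ s : E in 𝓝 t, ‖s.1‖ < 1 / 8 := (isOpen_lt (by fun_prop) (by fun_prop)).mem_nhds h
        filter_upwards [hn] with s hs
        show bump s.1 * Om1 s = Om1 s
        rw [bump_one hs, one_mul]
      rw [lev_congr h1]
      have h2 := lev_Om1 t v
      have h3 : ‖v.2‖ ^ 2 / (1 + ‖t.2‖ ^ 2) ^ 2 ≤ nm t v := by
        unfold nm; nlinarith [sq_nonneg ‖v.1‖]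
      nlinarith
    rcases lt_or_ge (1 / 4) ‖t.1‖ with h' | h'
    · have h1 : b1 =ᶠ[𝓝 t] fun _ => 0 := by
        have hn : ∀ᶠ s : E in 𝓝 t, 1 / 4 < ‖s.1‖ := (isOpen_lt (by fun_prop) (by fun_prop)).mem_nhds h'
        filter_upwards [hn] with s hs
        show bump s.1 * Om1 s = 0
        rw [bump_zero hs, zero_mul]
      rw [lev_congr h1]
      have : lev (fun _ => 0) t v = 0 := by
        unfold lev; rw [lap_eq]; simp
      rw [this]
      have : 0 ≤ (M0 + M1 + 8) * nm t v := by positivity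
      linarith
    rcases le_or_gt ‖t.2‖ 1 with h2 | h2
    · have h3 := H1 t ⟨⟨by simpa using h', by simpa using h⟩, by simpa using h2⟩ v
      have h4 := (abs_le.1 h3).1
      nlinarith
    · have h20 : t.2 ≠ 0 := by rintro h0; rw [h0] at h2; norm_num at h2
      have h10 : t.1 ≠ 0 := by rintro h0; rw [h0] at h; norm_num at h
      have h3 := H0 (t.1, t.2⁻¹) ⟨⟨by simpa using h', by simpa using h⟩, by
        simpa using inv_le_one_of_one_le₀ h2.le⟩ (v.1, -(v.2 / t.2 ^ 2))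
      rw [nm_inv h20, ← b_inv' h20 h10] at h3
      have h4 := (abs_le.1 h3).1
      nlinarith

/-! ### Local potentials in the first two charts -/

lemma bnd {K c M : ℝ} {g : ℂ → ℝ} {β : E → ℝ} {z v : E} (hg : ContDiffAt ℝ ∞ g z.1)
    (hlg : Laplacian.laplacian g z.1 = -c) (hβ : ContDiffAt ℝ ∞ β z)
    (hb : -(M * nm z v) ≤ lev β z v) (h1 : M + 1 ≤ K * c) (h2 : M + 1 ≤ 4 * K) :
    nm z v ≤ lev (fun t => -(K * g t.1) + K * Real.log (1 + ‖t.2‖ ^ 2) + β t) z v := by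
  have a1 : AnalyticAt ℂ (fun t : E => t.1) z := by fun_prop
  have a2 : AnalyticAt ℂ (fun t : E => t.2) z := by fun_prop
  have c1 : ContDiffAt ℝ 2 (fun t : E => g t.1) z := ContDiffAt.comp z (le2 hg) contDiffAt_fst
  have c2 := le2 (cd_log1 a2)
  have e1 := lev_h (le2 hg) a1 (line1 z v)
  have e2 := lev_log1 a2 (line2 z v)
  have c3 : ContDiffAt ℝ 2 (fun t : E => K * g t.1) z := contDiffAt_const.mul c1
  have c4 : ContDiffAt ℝ 2 (fun t : E => K * Real.log (1 + ‖t.2‖ ^ 2)) z :=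
    contDiffAt_const.mul c2
  rw [lev_add (c3.neg.add c4) (le2 hβ), lev_add c3.neg c4, lev_neg, lev_mul c1, lev_mul c2, e1, e2,
    hlg, mul_div_assoc]
  unfold nm at hb ⊢
  have p1 : 0 ≤ ‖v.1‖ ^ 2 := by positivity
  have p2 : 0 ≤ ‖v.2‖ ^ 2 / (1 + ‖z.2‖ ^ 2) ^ 2 := by positivity
  nlinarith [mul_le_mul_of_nonneg_right h1 p1, mul_le_mul_of_nonneg_right h2 p2]

lemma smAt_model {K : ℝ} {g : ℂ → ℝ} {β : E → ℝ} {z : E}
    (hg : ∀ᶠ x in 𝓝 z.1, ContDiffAt ℝ ∞ g x) (hβ : ∀ᶠ t in 𝓝 z, ContDiffAt ℝ ∞ β t) :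
    SmAt (fun t => -(K * g t.1) + K * Real.log (1 + ‖t.2‖ ^ 2) + β t) z := by
  have h1 : ∀ᶠ t : E in 𝓝 z, ContDiffAt ℝ ∞ g t.1 := continuousAt_fst.eventually hg
  unfold SmAt
  filter_upwards [h1, hβ] with t ht1 ht2
  have a2 : AnalyticAt ℂ (fun t : E => t.2) t := by fun_prop
  have c1 : ContDiffAt ℝ ∞ (fun t : E => g t.1) t := ContDiffAt.comp t ht1 contDiffAt_fst
  exact ((contDiffAt_const.mul c1).neg.add (contDiffAt_const.mul (cd_log1 a2))).add ht2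

lemma G_near {G h : ℂ → ℝ} {c : ℝ} (hG : IsGreen G h c) {x l : ℂ} (hl : l ∈ Lam)
    (hx : ‖x - l‖ < 1 / 2) (hx0 : x - l ≠ 0) : G x = Real.log (‖x - l‖ ^ 2) + h (x - l) := by
  rw [← hG.eq _ hx hx0]
  have := hG.per (x - l) l hl
  rwa [sub_add_cancel] at this

lemma L12 {x y l : ℂ} (hl : l ∈ Lam) (hx : ‖x - l‖ < 1 / 2) (hx0 : x - l ≠ 0) :
    L1 (x, y) + L2 (x, y) = Om0 (x - l, y) := by
  unfold L1 L2 Om0
  simp only [red_eq hl hx]
  have h1 := norm_pos_iff.2 hx0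
  rw [Real.log_div (by positivity) (by positivity), Real.log_div (by positivity) (by positivity),
    norm_pow, ← pow_mul]
  norm_num
  ring

lemma psi_near {G h : ℂ → ℝ} {c : ℝ} (hG : IsGreen G h c) (K : ℝ) {x y l : ℂ} (hl : l ∈ Lam)
    (hx : ‖x - l‖ < 1 / 2) (hx0 : x - l ≠ 0) : Psi G K (x, y) =
    -(K * (Real.log (‖x - l‖ ^ 2) + h (x - l))) + K * Real.log (1 + ‖y‖ ^ 2) +
      b0 (x - l, y) := by
  unfold Psi b0
  rw [L12 hl hx hx0]
  simp only [G_near hG hl hx hx0, chi, red_eq hl hx]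

lemma psi_far (G : ℂ → ℝ) (K : ℝ) {x y : ℂ} (hx : 1 / 4 < ‖red x‖) : Psi G K (x, y) =
    -(K * G x) + K * Real.log (1 + ‖y‖ ^ 2) := by
  unfold Psi chi
  simp only [bump_zero hx]
  ring

lemma log1_inv {y : ℂ} (hy : y ≠ 0) : Real.log (1 + ‖y⁻¹‖ ^ 2) =
    Real.log (1 + ‖y‖ ^ 2) - Real.log (‖y‖ ^ 2) := by
  have h1 := log_fac hy (u := y⁻¹) (v := 1) (Or.inr one_ne_zero)
  rw [mul_inv_cancel₀ hy, mul_one, norm_one, one_pow] at h1
  rw [h1, add_comm (‖y⁻¹‖ ^ 2)]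
  ring

/-- the local potential near a point with `x` near the point `l` of the lattice -/
lemma lev_shift (β : E → ℝ) (l : ℂ) (z v : E) :
    lev (fun t => β (t.1 - l, t.2)) z v = lev β (z.1 - l, z.2) v := by
  have e : (fun ζ : ℂ => (fun t : E => β (t.1 - l, t.2)) (z + ζ • v)) =
      fun ζ : ℂ => β ((z.1 - l, z.2) + ζ • v) := by
    funext ζ
    show β ((z + ζ • v).1 - l, (z + ζ • v).2) = β ((z.1 - l, z.2) + ζ • v)
    congr 1
    refine Prod.ext ?_ ?_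
    · show z.1 + ζ * v.1 - l = z.1 - l + ζ * v.1
      ring
    · rfl
  exact congrArg (fun f : ℂ → ℝ => Laplacian.laplacian f (0 : ℂ)) e

lemma cd_shift {β : E → ℝ} {l : ℂ} {z : E} (h : ContDiffAt ℝ ∞ β (z.1 - l, z.2)) :
    ContDiffAt ℝ ∞ (fun t : E => β (t.1 - l, t.2)) z := by
  have h1 : ContDiffAt ℝ ∞ (fun t : E => (t.1 - l, t.2)) z := by fun_prop
  exact ContDiffAt.comp z h h1

lemma h_shift {G h : ℂ → ℝ} {c : ℝ} (hG : IsGreen G h c) {x l : ℂ} (hx : ‖x - l‖ < 1 / 2) :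
    ContDiffAt ℝ ∞ (fun x => h (x - l)) x ∧ Laplacian.laplacian (fun x => h (x - l)) x = -c := by
  have h1 : ContDiffAt ℝ ∞ (fun x : ℂ => x - l) x := by fun_prop
  refine ⟨ContDiffAt.comp x (hG.smooth_h _ hx) h1, ?_⟩
  have e1 := lap_h hG hx
  rw [lap_eq] at e1 ⊢
  have e2 : fderiv ℝ (fun x => h (x - l)) = fun x => fderiv ℝ h (x - l) := by
    funext y
    exact fderiv_comp_sub l
  rw [e2]
  have e3 : fderiv ℝ (fun x => fderiv ℝ h (x - l)) x = fderiv ℝ (fderiv ℝ h) (x - l) :=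
    fderiv_comp_sub l
  rw [e3]
  exact e1

/-- the point lies near a point of the lattice -/
lemma near_l {z : ℂ} (h : ‖red z‖ ≤ 1 / 4) : ∀ᶠ x in 𝓝 z, ‖x - (z - red z)‖ < 1 / 2 := by
  have o1 : IsOpen {x : ℂ | ‖x - (z - red z)‖ < 1 / 2} := isOpen_lt (by fun_prop) (by fun_prop)
  refine o1.mem_nhds ?_
  show ‖z - (z - red z)‖ < 1 / 2
  rw [sub_sub_cancel]
  linarith

lemma lev_zero (z v : E) : lev (fun _ => 0) z v = 0 := by
  unfold lev; rw [lap_eq]; simp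

/-- the statement for one chart -/
def Good (G : ℂ → ℝ) (K : ℝ) (j : Fin 5) (z : E) : Prop :=
  ∃ ρ, PotAt (Psi G K) j z ρ ∧ ∀ v, nm z v ≤ lev ρ z v

lemma far_model {G h : ℂ → ℝ} {c K M : ℝ} (hG : IsGreen G h c) (hM : 0 ≤ M)
    (h1 : M + 1 ≤ K * c) (h2 : M + 1 ≤ 4 * K) {z : E} (hz : 1 / 4 < ‖red z.1‖) :
    SmAt (fun t => -(K * G t.1) + K * Real.log (1 + ‖t.2‖ ^ 2) + 0) z ∧
    ∀ v, nm z v ≤ lev (fun t => -(K * G t.1) + K * Real.log (1 + ‖t.2‖ ^ 2) + 0) z v := by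
  have hL : z.1 ∉ Lam := by
    intro hc
    rw [red_mem hc] at hz
    norm_num at hz
  refine ⟨smAt_model (β := fun _ => 0) ?_ (Eventually.of_forall fun _ => contDiffAt_const), ?_⟩
  · filter_upwards [isOpen_compl.mem_nhds hL] with x hx using hG.smooth x hx
  · intro v
    refine bnd (M := M) (β := fun _ => 0) (hG.smooth _ hL) (hG.lap _ hL) contDiffAt_const ?_ h1 h2
    rw [lev_zero]
    have := nm_nonneg z v
    have : 0 ≤ M * nm z v := by positivity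
    linarith

lemma near_model {G h : ℂ → ℝ} {c K M : ℝ} (hG : IsGreen G h c) {b : E → ℝ}
    (h1 : M + 1 ≤ K * c) (h2 : M + 1 ≤ 4 * K) {z : E} (hz : ‖red z.1‖ ≤ 1 / 4)
    (hb : ∀ᶠ t in 𝓝 (red z.1, z.2), ContDiffAt ℝ ∞ b t)
    (hM : ∀ v, -(M * nm (red z.1, z.2) v) ≤ lev b (red z.1, z.2) v) :
    SmAt (fun t => -(K * h (t.1 - (z.1 - red z.1))) + K * Real.log (1 + ‖t.2‖ ^ 2) +
      b (t.1 - (z.1 - red z.1), t.2)) z ∧
    ∀ v, nm z v ≤ lev (fun t => -(K * h (t.1 - (z.1 - red z.1))) +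
      K * Real.log (1 + ‖t.2‖ ^ 2) + b (t.1 - (z.1 - red z.1), t.2)) z v := by
  have e0 : z.1 - (z.1 - red z.1) = red z.1 := sub_sub_cancel _ _
  have hn : ‖z.1 - (z.1 - red z.1)‖ < 1 / 2 := by rw [e0]; linarith
  have hcont : Tendsto (fun t : E => (t.1 - (z.1 - red z.1), t.2)) (𝓝 z)
      (𝓝 (red z.1, z.2)) := by
    have hc : Continuous (fun t : E => (t.1 - (z.1 - red z.1), t.2)) := by fun_prop
    have := hc.tendsto z
    rwa [e0] at this
  refine ⟨smAt_model (g := fun x => h (x - (z.1 - red z.1)))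
    (β := fun t => b (t.1 - (z.1 - red z.1), t.2)) ?_ ?_, ?_⟩
  · filter_upwards [near_l hz] with x hx using (h_shift hG hx).1
  · filter_upwards [hcont.eventually hb] with t ht using cd_shift ht
  · intro v
    refine bnd (M := M) (g := fun x => h (x - (z.1 - red z.1)))
      (β := fun t => b (t.1 - (z.1 - red z.1), t.2)) (h_shift hG hn).1 (h_shift hG hn).2
      (cd_shift (by rw [e0]; exact hb.self_of_nhds)) ?_ h1 h2
    rw [lev_shift, e0]
    exact hM v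

section charts

variable {G h : ℂ → ℝ} {c K M : ℝ} (hG : IsGreen G h c) (hM0 : 0 ≤ M)
  (hM : (∀ t : E, t ≠ 0 → ∀ v, -(M * nm t v) ≤ lev b0 t v) ∧
    ∀ t v : E, -(M * nm t v) ≤ lev b1 t v) (h1 : M + 1 ≤ K * c) (h2 : M + 1 ≤ 4 * K)

include hG hM0 hM h1 h2

lemma chart0 {z : E} (hz : z ∈ V 0) : Good G K 0 z := by
  rcases lt_or_ge (1 / 4) ‖red z.1‖ with hr | hr
  · obtain ⟨hs, hb⟩ := far_model hG hM0 h1 h2 hr
    refine ⟨_, potAt_of (f := fun _ => 1) (g := fun _ => 1) (a := 0) (b := 0) hs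
      (fun _ => analyticAt_const) (fun _ => analyticAt_const) ?_, hb⟩
    have h3 : ∀ᶠ t : E in 𝓝 z, 1 / 4 < ‖red t.1‖ := continuousAt_fst.eventually (red_far hr)
    filter_upwards [h3] with t ht _
    refine ⟨one_ne_zero, one_ne_zero, ?_⟩
    show _ - Psi G K (t.1, t.2) = _
    rw [psi_far G K ht]
    ring
  · have hne : ((red z.1, z.2) : E) ≠ 0 := by
      intro hc
      have e1 : red z.1 = 0 := congrArg Prod.fst hc
      have e2 : z.2 = 0 := congrArg Prod.snd hc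
      rcases hz with hz | hz
      · exact hz (mem_of_red e1)
      · exact hz e2
    have hne' : ∀ᶠ t : E in 𝓝 (red z.1, z.2), t ≠ 0 := isOpen_ne.mem_nhds hne
    obtain ⟨hs, hb⟩ := near_model (b := b0) hG h1 h2 hr (hne'.mono fun t ht => cd_b0 ht)
      (fun v => hM.1 _ hne v)
    refine ⟨_, potAt_of (f := fun t => t.1 - (z.1 - red z.1)) (g := fun _ => 1) (a := K) (b := 0)
      hs (fun _ => by fun_prop) (fun _ => analyticAt_const) ?_, hb⟩
    have h3 : ∀ᶠ t : E in 𝓝 z, ‖t.1 - (z.1 - red z.1)‖ < 1 / 2 :=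
      continuousAt_fst.eventually (near_l hr)
    filter_upwards [h3] with t ht hW
    have hx0 : t.1 - (z.1 - red z.1) ≠ 0 := by
      intro hc
      exact hW.1 (by
        show t.1 ∈ Lam
        rw [sub_eq_zero.1 hc]; exact sub_red_mem _)
    refine ⟨hx0, one_ne_zero, ?_⟩
    show _ - Psi G K (t.1, t.2) = _
    rw [psi_near hG K (sub_red_mem z.1) ht hx0]
    ring

lemma chart1 {z : E} : Good G K 1 z := by
  rcases lt_or_ge (1 / 4) ‖red z.1‖ with hr | hr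
  · obtain ⟨hs, hb⟩ := far_model hG hM0 h1 h2 hr
    refine ⟨_, potAt_of (f := fun t => t.2) (g := fun _ => 1) (a := K) (b := 0) hs
      (fun _ => by fun_prop) (fun _ => analyticAt_const) ?_, hb⟩
    have h3 : ∀ᶠ t : E in 𝓝 z, 1 / 4 < ‖red t.1‖ := continuousAt_fst.eventually (red_far hr)
    filter_upwards [h3] with t ht hW
    have hy : t.2 ≠ 0 := fun h0 => hW.2 (by show t.2⁻¹ = 0; rw [h0, inv_zero])
    refine ⟨hy, one_ne_zero, ?_⟩
    show _ - Psi G K (t.1, t.2⁻¹) = _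
    rw [psi_far G K ht, log1_inv hy]
    simp
    ring
  · obtain ⟨hs, hb⟩ := near_model (b := b1) hG h1 h2 hr (Eventually.of_forall fun t => cd_b1 t)
      (fun v => hM.2 _ v)
    refine ⟨_, potAt_of (f := fun t => t.1 - (z.1 - red z.1)) (g := fun t => t.2) (a := K) (b := K)
      hs (fun _ => by fun_prop) (fun _ => by fun_prop) ?_, hb⟩
    have h3 : ∀ᶠ t : E in 𝓝 z, ‖t.1 - (z.1 - red z.1)‖ < 1 / 2 :=
      continuousAt_fst.eventually (near_l hr)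
    filter_upwards [h3] with t ht hW
    have hy : t.2 ≠ 0 := fun h0 => hW.2 (by show t.2⁻¹ = 0; rw [h0, inv_zero])
    have hx0 : t.1 - (z.1 - red z.1) ≠ 0 := by
      intro hc
      exact hW.1 (by
        show t.1 ∈ Lam
        rw [sub_eq_zero.1 hc]; exact sub_red_mem _)
    refine ⟨hx0, hy, ?_⟩
    show _ - Psi G K (t.1, t.2⁻¹) = _
    rw [psi_near hG K (sub_red_mem z.1) ht hx0, log1_inv hy]
    unfold b0 b1
    rw [Om_inv (inv_ne_zero hy), inv_inv]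
    simp only
    ring

lemma onW {z : E} (hz : z ∈ W) (v : E) : nm z v ≤ lev (Psi G K) z v := by
  rcases lt_or_ge (1 / 4) ‖red z.1‖ with hr | hr
  · obtain ⟨hs, hb⟩ := far_model hG hM0 h1 h2 hr
    have h3 : ∀ᶠ t : E in 𝓝 z, 1 / 4 < ‖red t.1‖ := continuousAt_fst.eventually (red_far hr)
    have h4 : Psi G K =ᶠ[𝓝 z] fun t => -(K * G t.1) + K * Real.log (1 + ‖t.2‖ ^ 2) + 0 := by
      filter_upwards [h3] with t ht
      show Psi G K (t.1, t.2) = _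
      rw [psi_far G K ht]
      ring
    rw [lev_congr h4]
    exact hb v
  · have hne : ((red z.1, z.2) : E) ≠ 0 := fun hc => hz.2 (congrArg Prod.snd hc)
    have hne' : ∀ᶠ t : E in 𝓝 (red z.1, z.2), t ≠ 0 := isOpen_ne.mem_nhds hne
    obtain ⟨hs, hb⟩ := near_model (b := b0) hG h1 h2 hr (hne'.mono fun t ht => cd_b0 ht)
      (fun v => hM.1 _ hne v)
    have h3 : ∀ᶠ t : E in 𝓝 z, ‖t.1 - (z.1 - red z.1)‖ < 1 / 2 :=
      continuousAt_fst.eventually (near_l hr)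
    set f : E → ℂ := fun t => t.1 - (z.1 - red z.1) with hf
    have hfa : ∀ t, AnalyticAt ℂ f t := fun t => by rw [hf]; fun_prop
    have hx0 : ∀ t ∈ W, f t ≠ 0 := by
      intro t ht hc
      exact ht.1 (by
        have : t.1 - (z.1 - red z.1) = 0 := hc
        rw [sub_eq_zero.1 this]; exact sub_red_mem _)
    have h4 : Psi G K =ᶠ[𝓝 z] fun t => (-(K * h (t.1 - (z.1 - red z.1))) +
        K * Real.log (1 + ‖t.2‖ ^ 2) + b0 (t.1 - (z.1 - red z.1), t.2)) -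
        (K * Real.log (‖f t‖ ^ 2) + 0 * Real.log (‖(1 : ℂ)‖ ^ 2)) := by
      filter_upwards [h3, isOpen_W.mem_nhds hz] with t ht hW
      show Psi G K (t.1, t.2) = _
      rw [psi_near hG K (sub_red_mem z.1) ht (hx0 t hW)]
      ring
    have c1 : ContDiffAt ℝ 2 (fun t => K * Real.log (‖f t‖ ^ 2) + 0 * Real.log (‖(1 : ℂ)‖ ^ 2)) z :=
      (contDiffAt_const.mul (le2 (cd_log (hfa z) (hx0 z hz)))).add contDiffAt_const
    rw [lev_congr h4, lev_sub (le2 hs.self_of_nhds) c1,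
      lev_harm (g := fun _ => 1) K 0 (hfa z) analyticAt_const (hx0 z hz) one_ne_zero, sub_zero]
    exact hb v

end charts

/-! ### The other charts -/

lemma pot_lev {h : ℂ → ℝ} {p y a b : E → ℂ} {z v : E} {p' y' a' b' : ℂ} {K c : ℝ}
    (hh : ContDiffAt ℝ ∞ h (p z)) (hc : Laplacian.laplacian h (p z) = -c) (hc0 : 0 < c)
    (hK : 2 < K) (hp : AnalyticAt ℂ p z) (hy : AnalyticAt ℂ y z) (ha : AnalyticAt ℂ a z)
    (hb : AnalyticAt ℂ b z) (hp' : HasDerivAt (fun ζ : ℂ => p (z + ζ • v)) p' 0)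
    (hy' : HasDerivAt (fun ζ : ℂ => y (z + ζ • v)) y' 0)
    (ha' : HasDerivAt (fun ζ : ℂ => a (z + ζ • v)) a' 0)
    (hb' : HasDerivAt (fun ζ : ℂ => b (z + ζ • v)) b' 0)
    (hne : ¬ (p' = 0 ∧ y' = 0 ∧ a' = 0 ∧ b' = 0)) :
    0 < lev (fun t => -(K * h (p t)) + (K - 2) * Real.log (1 + ‖y t‖ ^ 2) +
      Real.log (1 + ‖a t‖ ^ 2) + Real.log (1 + ‖b t‖ ^ 2)) z v := by
  have c1 : ContDiffAt ℝ 2 (fun t : E => h (p t)) z :=
    ContDiffAt.comp z (le2 hh) ((hp.contDiffAt (n := 2)).restrict_scalars ℝ)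
  have c2 := le2 (cd_log1 hy)
  have c3 := le2 (cd_log1 ha)
  have c4 := le2 (cd_log1 hb)
  have d1 : ContDiffAt ℝ 2 (fun t : E => K * h (p t)) z := contDiffAt_const.mul c1
  have d2 : ContDiffAt ℝ 2 (fun t : E => (K - 2) * Real.log (1 + ‖y t‖ ^ 2)) z :=
    contDiffAt_const.mul c2
  rw [lev_add ((d1.neg.add d2).add c3) c4, lev_add (d1.neg.add d2) c3, lev_add d1.neg d2, lev_neg,
    lev_mul c1, lev_mul c2, lev_h (le2 hh) hp hp', lev_log1 hy hy', lev_log1 ha ha',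
    lev_log1 hb hb', hc]
  have hK0 : 0 < K := by linarith
  have hK2 : 0 < K - 2 := by linarith
  have p1 : 0 ≤ K * (c * ‖p'‖ ^ 2) := by positivity
  have p2 : 0 ≤ (K - 2) * (4 * ‖y'‖ ^ 2 / (1 + ‖y z‖ ^ 2) ^ 2) := by positivity
  have p3 : 0 ≤ 4 * ‖a'‖ ^ 2 / (1 + ‖a z‖ ^ 2) ^ 2 := by positivity
  have p4 : 0 ≤ 4 * ‖b'‖ ^ 2 / (1 + ‖b z‖ ^ 2) ^ 2 := by positivity
  have e : -(K * (-c * ‖p'‖ ^ 2)) = K * (c * ‖p'‖ ^ 2) := by ring
  rw [e]
  by_contra hcon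
  push Not at hcon
  apply hne
  have q1 : K * (c * ‖p'‖ ^ 2) = 0 := by linarith
  have q2 : (K - 2) * (4 * ‖y'‖ ^ 2 / (1 + ‖y z‖ ^ 2) ^ 2) = 0 := by linarith
  have q3 : 4 * ‖a'‖ ^ 2 / (1 + ‖a z‖ ^ 2) ^ 2 = 0 := by linarith
  have q4 : 4 * ‖b'‖ ^ 2 / (1 + ‖b z‖ ^ 2) ^ 2 = 0 := by linarith
  refine ⟨?_, ?_, ?_, ?_⟩
  · by_contra hx
    have := norm_pos_iff.2 hx
    have : 0 < K * (c * ‖p'‖ ^ 2) := by positivity
    linarith
  · by_contra hx
    have := norm_pos_iff.2 hx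
    have : 0 < (K - 2) * (4 * ‖y'‖ ^ 2 / (1 + ‖y z‖ ^ 2) ^ 2) := by positivity
    linarith
  · by_contra hx
    have := norm_pos_iff.2 hx
    have : 0 < 4 * ‖a'‖ ^ 2 / (1 + ‖a z‖ ^ 2) ^ 2 := by positivity
    linarith
  · by_contra hx
    have := norm_pos_iff.2 hx
    have : 0 < 4 * ‖b'‖ ^ 2 / (1 + ‖b z‖ ^ 2) ^ 2 := by positivity
    linarith

lemma pot_sm {h : ℂ → ℝ} {p y a b : E → ℂ} {z : E} {K : ℝ}
    (hh : ∀ᶠ t in 𝓝 z, ContDiffAt ℝ ∞ h (p t)) (hp : ∀ t, AnalyticAt ℂ p t)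
    (hy : ∀ t, AnalyticAt ℂ y t) (ha : ∀ t, AnalyticAt ℂ a t) (hb : ∀ t, AnalyticAt ℂ b t) :
    SmAt (fun t => -(K * h (p t)) + (K - 2) * Real.log (1 + ‖y t‖ ^ 2) +
      Real.log (1 + ‖a t‖ ^ 2) + Real.log (1 + ‖b t‖ ^ 2)) z := by
  unfold SmAt
  filter_upwards [hh] with t ht
  have c1 : ContDiffAt ℝ ∞ (fun t : E => h (p t)) t :=
    ContDiffAt.comp t ht (((hp t).contDiffAt (n := ∞)).restrict_scalars ℝ)
  exact (((contDiffAt_const.mul c1).neg.add (contDiffAt_const.mul (cd_log1 (hy t)))).add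
    (cd_log1 (ha t))).add (cd_log1 (hb t))

lemma psi_zero {G h : ℂ → ℝ} {c : ℝ} (hG : IsGreen G h c) (K : ℝ) {x y : ℂ}
    (hx : ‖x‖ < 1 / 8) (hx0 : x ≠ 0) : Psi G K (x, y) =
    -(K * (Real.log (‖x‖ ^ 2) + h x)) + K * Real.log (1 + ‖y‖ ^ 2) + Om0 (x, y) := by
  have h1 := psi_near hG K (x := x) (y := y) zero_mem (by rw [sub_zero]; linarith)
    (by rwa [sub_zero])
  rw [h1]
  unfold b0
  simp only [sub_zero, bump_one hx, one_mul]

section charts2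

variable {G h : ℂ → ℝ} {c K : ℝ} (hG : IsGreen G h c) (hK : 2 < K)

include hG hK

lemma chart2 {z : E} (hz : z ∈ V 2) :
    ∃ ρ, PotAt (Psi G K) 2 z ρ ∧ ∀ v, v ≠ 0 → 0 < lev ρ z v := by
  have hz1 : ‖z.1 * z.2‖ < 1 / 8 := hz.1
  have hn : ∀ᶠ t : E in 𝓝 z, ‖t.1 * t.2‖ < 1 / 8 :=
    (isOpen_lt (by fun_prop) (by fun_prop)).mem_nhds hz1
  refine ⟨_, potAt_of (f := fun t => t.1 * t.2) (g := fun t => t.2) (a := K) (b := -2)
    (pot_sm (h := h) (K := K) (p := fun t => t.1 * t.2) (y := fun t => t.2 + t.1 * t.2)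
      (a := fun t => t.1) (b := fun t => t.1 ^ 2 * t.2) ?_ (fun _ => by fun_prop)
      (fun _ => by fun_prop) (fun _ => by fun_prop) (fun _ => by fun_prop))
    (fun _ => by fun_prop) (fun _ => by fun_prop) ?_, ?_⟩
  · filter_upwards [hn] with t ht using hG.smooth_h _ (by linarith)
  · filter_upwards [hn] with t ht hW
    have hx0 : t.1 * t.2 ≠ 0 := by
      intro hc
      exact hW.1 (by show t.1 * t.2 ∈ Lam; rw [hc]; exact zero_mem)
    have hη : t.2 ≠ 0 := right_ne_zero_of_mul hx0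
    refine ⟨hx0, hη, ?_⟩
    show _ - Psi G K (t.1 * t.2, t.2 + t.1 * t.2) = _
    rw [psi_zero hG K ht hx0]
    have e1 : Real.log (‖t.1 * t.2‖ ^ 2 + ‖t.2 + t.1 * t.2 - t.1 * t.2‖ ^ 2) =
        Real.log (‖t.2‖ ^ 2) + Real.log (1 + ‖t.1‖ ^ 2) := by
      have := log_fac hη (u := t.1) (v := 1) (Or.inr one_ne_zero)
      rw [norm_one, one_pow, add_comm (‖t.1‖ ^ 2) 1, mul_one, mul_comm t.2 t.1] at this
      rw [add_sub_cancel_right, this]
    have e2 : Real.log (‖t.2 + t.1 * t.2 - t.1 * t.2‖ ^ 2 + ‖(t.1 * t.2) ^ 2‖ ^ 2) =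
        Real.log (‖t.2‖ ^ 2) + Real.log (1 + ‖t.1 ^ 2 * t.2‖ ^ 2) := by
      have := log_fac hη (u := 1) (v := t.1 ^ 2 * t.2) (Or.inl one_ne_zero)
      rw [norm_one, one_pow, mul_one] at this
      rw [add_sub_cancel_right, ← this]
      congr 4
      ring
    unfold Om0
    simp only
    rw [e1, e2]
    ring
  · intro v hv
    have l1 := line1 z v
    have l2 := line2 z v
    refine pot_lev (p := fun t => t.1 * t.2) (y := fun t => t.2 + t.1 * t.2)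
      (a := fun t => t.1) (b := fun t => t.1 ^ 2 * t.2) (hG.smooth_h _ (by linarith))
      (lap_h hG (by linarith)) hG.pos hK (by fun_prop) (by fun_prop) (by fun_prop) (by fun_prop)
      (l1.mul l2) (l2.add (l1.mul l2)) l1 ((l1.pow 2).mul l2) ?_
    rintro ⟨q1, q2, q3, -⟩
    apply hv
    rw [q1, add_zero] at q2
    exact Prod.ext q3 q2

lemma chart3 {z : E} (hz : z ∈ V 3) :
    ∃ ρ, PotAt (Psi G K) 3 z ρ ∧ ∀ v, v ≠ 0 → 0 < lev ρ z v := by
  have hz1 : ‖z.1 * z.2‖ < 1 / 8 := hz.1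
  have hn : ∀ᶠ t : E in 𝓝 z, ‖t.1 * t.2‖ < 1 / 8 :=
    (isOpen_lt (by fun_prop) (by fun_prop)).mem_nhds hz1
  refine ⟨_, potAt_of (f := fun t => t.1 * t.2) (g := fun t => t.1 * t.2 ^ 2) (a := K - 1)
    (b := -1)
    (pot_sm (h := h) (K := K) (p := fun t => t.1 * t.2) (y := fun t => t.1 * t.2 ^ 2 + t.1 * t.2)
      (a := fun t => t.2) (b := fun t => t.1) ?_ (fun _ => by fun_prop)
      (fun _ => by fun_prop) (fun _ => by fun_prop) (fun _ => by fun_prop))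
    (fun _ => by fun_prop) (fun _ => by fun_prop) ?_, ?_⟩
  · filter_upwards [hn] with t ht using hG.smooth_h _ (by linarith)
  · filter_upwards [hn] with t ht hW
    have hx0 : t.1 * t.2 ≠ 0 := by
      intro hc
      exact hW.1 (by show t.1 * t.2 ∈ Lam; rw [hc]; exact zero_mem)
    have hη : t.2 ≠ 0 := right_ne_zero_of_mul hx0
    have hξ : t.1 ≠ 0 := left_ne_zero_of_mul hx0
    have hw : t.1 * t.2 ^ 2 ≠ 0 := mul_ne_zero hξ (pow_ne_zero 2 hη)
    refine ⟨hx0, hw, ?_⟩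
    show _ - Psi G K (t.1 * t.2, t.1 * t.2 ^ 2 + t.1 * t.2) = _
    rw [psi_zero hG K ht hx0]
    have e1 : Real.log (‖t.1 * t.2‖ ^ 2 + ‖t.1 * t.2 ^ 2 + t.1 * t.2 - t.1 * t.2‖ ^ 2) =
        Real.log (‖t.1 * t.2‖ ^ 2) + Real.log (1 + ‖t.2‖ ^ 2) := by
      have := log_fac hx0 (u := 1) (v := t.2) (Or.inl one_ne_zero)
      rw [norm_one, one_pow, mul_one] at this
      rw [add_sub_cancel_right, ← this]
      congr 4
      ring
    have e2 : Real.log (‖t.1 * t.2 ^ 2 + t.1 * t.2 - t.1 * t.2‖ ^ 2 + ‖(t.1 * t.2) ^ 2‖ ^ 2) =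
        Real.log (‖t.1 * t.2 ^ 2‖ ^ 2) + Real.log (1 + ‖t.1‖ ^ 2) := by
      have := log_fac hw (u := 1) (v := t.1) (Or.inl one_ne_zero)
      rw [norm_one, one_pow, mul_one] at this
      rw [add_sub_cancel_right, ← this]
      congr 4
      ring
    unfold Om0
    simp only
    rw [e1, e2]
    ring
  · intro v hv
    have l1 := line1 z v
    have l2 := line2 z v
    refine pot_lev (p := fun t => t.1 * t.2) (y := fun t => t.1 * t.2 ^ 2 + t.1 * t.2)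
      (a := fun t => t.2) (b := fun t => t.1) (hG.smooth_h _ (by linarith))
      (lap_h hG (by linarith)) hG.pos hK (by fun_prop) (by fun_prop) (by fun_prop) (by fun_prop)
      (l1.mul l2) ((l1.mul (l2.pow 2)).add (l1.mul l2)) l2 l1 ?_
    rintro ⟨-, -, q3, q4⟩
    exact hv (Prod.ext q4 q3)

lemma chart4 {z : E} (hz : z ∈ V 4) :
    ∃ ρ, PotAt (Psi G K) 4 z ρ ∧ ∀ v, v ≠ 0 → 0 < lev ρ z v := by
  have hz1 : ‖z.1‖ < 1 / 8 := hz.1
  have hn : ∀ᶠ t : E in 𝓝 z, ‖t.1‖ < 1 / 8 :=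
    (isOpen_lt (by fun_prop) (by fun_prop)).mem_nhds hz1
  refine ⟨_, potAt_of (f := fun t => t.1) (g := fun t => t.1 ^ 2) (a := K - 1)
    (b := -1)
    (pot_sm (h := h) (K := K) (p := fun t => t.1) (y := fun t => t.1 ^ 2 * t.2 + t.1)
      (a := fun t => t.1 * t.2) (b := fun t => t.2) ?_ (fun _ => by fun_prop)
      (fun _ => by fun_prop) (fun _ => by fun_prop) (fun _ => by fun_prop))
    (fun _ => by fun_prop) (fun _ => by fun_prop) ?_, ?_⟩
  · filter_upwards [hn] with t ht using hG.smooth_h _ (by linarith)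
  · filter_upwards [hn] with t ht hW
    have hx0 : t.1 ≠ 0 := by
      intro hc
      exact hW.1 (by show t.1 ∈ Lam; rw [hc]; exact zero_mem)
    have hw : t.1 ^ 2 ≠ 0 := pow_ne_zero 2 hx0
    refine ⟨hx0, hw, ?_⟩
    show _ - Psi G K (t.1, t.1 ^ 2 * t.2 + t.1) = _
    rw [psi_zero hG K ht hx0]
    have e1 : Real.log (‖t.1‖ ^ 2 + ‖t.1 ^ 2 * t.2 + t.1 - t.1‖ ^ 2) =
        Real.log (‖t.1‖ ^ 2) + Real.log (1 + ‖t.1 * t.2‖ ^ 2) := by
      have := log_fac hx0 (u := 1) (v := t.1 * t.2) (Or.inl one_ne_zero)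
      rw [norm_one, one_pow, mul_one] at this
      rw [add_sub_cancel_right, ← this]
      congr 4
      ring
    have e2 : Real.log (‖t.1 ^ 2 * t.2 + t.1 - t.1‖ ^ 2 + ‖t.1 ^ 2‖ ^ 2) =
        Real.log (‖t.1 ^ 2‖ ^ 2) + Real.log (1 + ‖t.2‖ ^ 2) := by
      have := log_fac hw (u := t.2) (v := 1) (Or.inr one_ne_zero)
      rw [norm_one, one_pow, mul_one] at this
      rw [add_sub_cancel_right, this, add_comm (‖t.2‖ ^ 2)]
    unfold Om0
    simp only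
    rw [e1, e2]
    ring
  · intro v hv
    have l1 := line1 z v
    have l2 := line2 z v
    refine pot_lev (p := fun t => t.1) (y := fun t => t.1 ^ 2 * t.2 + t.1)
      (a := fun t => t.1 * t.2) (b := fun t => t.2) (hG.smooth_h _ (by linarith))
      (lap_h hG (by linarith)) hG.pos hK (by fun_prop) (by fun_prop) (by fun_prop) (by fun_prop)
      l1 (((l1.pow 2).mul l2).add l1) (l1.mul l2) l2 ?_
    rintro ⟨q1, -, -, q4⟩
    exact hv (Prod.ext q1 q4)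

end charts2

/-- The Kähler form. -/
theorem stPsi : StPsi := by
  intro G h c hG
  obtain ⟨M, hM0, hM⟩ := core
  have hc := hG.pos
  set K : ℝ := (M + 1) / c + M + 4 with hK
  have hd : 0 ≤ (M + 1) / c := by positivity
  have h1 : M + 1 ≤ K * c := by
    rw [hK]
    have e : (M + 1) / c * c = M + 1 := div_mul_cancel₀ _ hc.ne'
    nlinarith [mul_nonneg (show (0 : ℝ) ≤ M + 4 by linarith) hc.le]
  have h2 : M + 1 ≤ 4 * K := by linarith
  have hK2 : 2 < K := by linarith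
  refine ⟨K, 1, by linarith, one_pos, ?_, ?_⟩
  · intro z hz v
    rw [one_mul]
    exact onW hG hM0 hM h1 h2 hz v
  · intro j z hz
    match j with
    | 0 =>
      obtain ⟨ρ, hρ, hb⟩ := chart0 hG hM0 hM h1 h2 hz
      exact ⟨ρ, hρ, fun v hv => (nm_pos z hv).trans_le (hb v)⟩
    | 1 =>
      obtain ⟨ρ, hρ, hb⟩ := chart1 (z := z) hG hM0 hM h1 h2
      exact ⟨ρ, hρ, fun v hv => (nm_pos z hv).trans_le (hb v)⟩
    | 2 => exact chart2 hG hK2 hz
    | 3 => exact chart3 hG hK2 hz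
    | 4 => exact chart4 hG hK2 hz

end Pool.Agent.Y304.SP
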