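import Pool.Agent.Y184.SP.Base

/-!
Levi forms of functions on `ℂ × ℂ`: the chain rule and the logarithm of a sum of squares.
-/

set_option autoImplicit false

open Set Topology Filter
open scoped ContDiff ComplexConjugate

namespace Pool.Agent.Y304.SP

open Pool.Agent.Y184.SP

lemma lap_eq (f : ℂ → ℝ) (x : ℂ) : Laplacian.laplacian f x =
    fderiv ℝ (fderiv ℝ f) x 1 1 + fderiv ℝ (fderiv ℝ f) x Complex.I Complex.I := by
  rw [InnerProductSpace.laplacian_eq_iteratedFDeriv_complexPlane]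
  simp [iteratedFDeriv_two_apply]

lemma d2_line {L : ℂ → ℝ} (hL : ContDiffAt ℝ 2 L 0) (e : ℂ) {ψ : ℝ → ℝ} {c : ℝ}
    (h1 : ∀ᶠ t in 𝓝 (0 : ℝ), HasDerivAt (fun s : ℝ => L ((s : ℂ) * e)) (ψ t) t)
    (h2 : HasDerivAt ψ c 0) : fderiv ℝ (fderiv ℝ L) 0 e e = c := by
  have hdiff : ∀ᶠ ζ in 𝓝 (0 : ℂ), DifferentiableAt ℝ L ζ := by
    have h := hL.eventually (by simp)
    filter_upwards [h] with ζ hζ
    exact hζ.differentiableAt (by norm_num)
  have hf : DifferentiableAt ℝ (fderiv ℝ L) 0 := by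
    have : ContDiffAt ℝ 1 (fderiv ℝ L) 0 := hL.fderiv_right (by norm_num)
    exact this.differentiableAt (by norm_num)
  have hline : ∀ t : ℝ, HasDerivAt (fun s : ℝ => (s : ℂ) * e) e t := by
    intro t
    simpa using (Complex.ofRealCLM.hasDerivAt (x := t)).mul_const e
  have ht0 : Tendsto (fun s : ℝ => (s : ℂ) * e) (𝓝 0) (𝓝 (0 : ℂ)) := by
    have := (hline 0).continuousAt.tendsto
    simpa using this
  have h3 : ψ =ᶠ[𝓝 0] fun t => fderiv ℝ L ((t : ℂ) * e) e := by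
    filter_upwards [h1, ht0.eventually hdiff] with t ht htd
    have h4 : HasDerivAt (fun s : ℝ => L ((s : ℂ) * e)) (fderiv ℝ L ((t : ℂ) * e) e) t :=
      htd.hasFDerivAt.comp_hasDerivAt t (hline t)
    exact ht.unique h4
  have h5 : HasDerivAt (fun t : ℝ => fderiv ℝ L ((t : ℂ) * e) e)
      (fderiv ℝ (fderiv ℝ L) 0 e e) 0 := by
    have h6 : HasFDerivAt (fderiv ℝ L) (fderiv ℝ (fderiv ℝ L) 0) (((0 : ℝ) : ℂ) * e) := by
      rw [Complex.ofReal_zero, zero_mul]; exact hf.hasFDerivAt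
    have h7 : HasDerivAt (fun t : ℝ => fderiv ℝ L ((t : ℂ) * e)) (fderiv ℝ (fderiv ℝ L) 0 e) 0 :=
      h6.comp_hasDerivAt (0 : ℝ) (hline 0)
    have h8 := (ContinuousLinearMap.apply ℝ ℝ e).hasFDerivAt.comp_hasDerivAt (0 : ℝ) h7
    exact h8
  exact ((h2.congr_of_eventuallyEq h3.symm).unique h5).symm

/-- the chain rule for the Laplacian and holomorphic curves -/
lemma lap_comp {F : Type} [NormedAddCommGroup F] [NormedSpace ℂ F] [NormedSpace ℝ F]
    [IsScalarTower ℝ ℂ F] [CompleteSpace F] {ρ : F → ℝ} {γ : ℂ → F}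
    (hρ : ContDiffAt ℝ 2 ρ (γ 0)) (hγ : AnalyticAt ℂ γ 0) :
    Laplacian.laplacian (fun ζ => ρ (γ ζ)) 0 =
      fderiv ℝ (fderiv ℝ ρ) (γ 0) (deriv γ 0) (deriv γ 0) +
      fderiv ℝ (fderiv ℝ ρ) (γ 0) (Complex.I • deriv γ 0) (Complex.I • deriv γ 0) := by
  have hγc : ContDiffAt ℝ 2 γ 0 := (hγ.contDiffAt (n := 2)).restrict_scalars ℝ
  have hL : ContDiffAt ℝ 2 (fun ζ => ρ (γ ζ)) 0 := hρ.comp (0 : ℂ) hγc
  have hdiff : ∀ᶠ w in 𝓝 (γ 0), DifferentiableAt ℝ ρ w := by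
    have h := hρ.eventually (by simp)
    filter_upwards [h] with ζ hζ
    exact hζ.differentiableAt (by norm_num)
  have hf : DifferentiableAt ℝ (fderiv ℝ ρ) (γ 0) := by
    have : ContDiffAt ℝ 1 (fderiv ℝ ρ) (γ 0) := hρ.fderiv_right (by norm_num)
    exact this.differentiableAt (by norm_num)
  have key : ∀ e : ℂ, fderiv ℝ (fderiv ℝ (fun ζ => ρ (γ ζ))) 0 e e =
      fderiv ℝ (fderiv ℝ ρ) (γ 0) (e • deriv γ 0) (e • deriv γ 0) +
      fderiv ℝ ρ (γ 0) (e • e • deriv (deriv γ) 0) := by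
    intro e
    have hline : ∀ t : ℝ, HasDerivAt (fun s : ℝ => (s : ℂ) * e) e t := by
      intro t
      simpa using (Complex.ofRealCLM.hasDerivAt (x := t)).mul_const e
    have ht0 : Tendsto (fun s : ℝ => (s : ℂ) * e) (𝓝 0) (𝓝 (0 : ℂ)) := by
      have := (hline 0).continuousAt.tendsto
      simpa using this
    have hcurve : ∀ (g : ℂ → F) (t : ℝ), DifferentiableAt ℂ g ((t : ℂ) * e) →
        HasDerivAt (fun s : ℝ => g ((s : ℂ) * e)) (e • deriv g ((t : ℂ) * e)) t := by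
      intro g t hg
      have h := (hg.hasDerivAt).scomp t (hline t)
      exact h
    refine d2_line hL e (ψ := fun t => fderiv ℝ ρ (γ ((t : ℂ) * e)) (e • deriv γ ((t : ℂ) * e)))
      ?_ ?_
    · have hγt : Tendsto (fun s : ℝ => γ ((s : ℂ) * e)) (𝓝 0) (𝓝 (γ 0)) :=
        hγ.continuousAt.tendsto.comp ht0
      filter_upwards [ht0.eventually hγ.eventually_analyticAt, hγt.eventually hdiff] with t h1 h2
      exact h2.hasFDerivAt.comp_hasDerivAt t (hcurve γ t h1.differentiableAt)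
    · have h0 : ((0 : ℝ) : ℂ) * e = 0 := by simp
      have h1 : HasDerivAt (fun s : ℝ => γ ((s : ℂ) * e)) (e • deriv γ 0) 0 := by
        have := hcurve γ 0 (by rw [h0]; exact hγ.differentiableAt)
        rwa [h0] at this
      have h2 : HasDerivAt (fun s : ℝ => e • deriv γ ((s : ℂ) * e)) (e • e • deriv (deriv γ) 0)
          0 := by
        have := hcurve (deriv γ) 0 (by rw [h0]; exact hγ.deriv.differentiableAt)
        rw [h0] at this
        exact this.const_smul e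
      have h3 : HasDerivAt (fun s : ℝ => fderiv ℝ ρ (γ ((s : ℂ) * e)))
          (fderiv ℝ (fderiv ℝ ρ) (γ 0) (e • deriv γ 0)) 0 := by
        have h4 : HasFDerivAt (fderiv ℝ ρ) (fderiv ℝ (fderiv ℝ ρ) (γ 0))
            (γ (((0 : ℝ) : ℂ) * e)) := by rw [h0]; exact hf.hasFDerivAt
        exact h4.comp_hasDerivAt (0 : ℝ) h1
      have h5 := h3.clm_apply h2
      simp only [h0] at h5
      exact h5
  rw [lap_eq, key, key]
  simp only [one_smul]
  rw [smul_smul, Complex.I_mul_I, neg_one_smul, map_neg]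
  ring

lemma lev_congr {f g : E → ℝ} {z : E} (h : f =ᶠ[𝓝 z] g) (v : E) : lev f z v = lev g z v := by
  unfold lev
  have h1 : Tendsto (fun ζ : ℂ => z + ζ • v) (𝓝 0) (𝓝 z) := by
    have : Continuous fun ζ : ℂ => z + ζ • v := by fun_prop
    simpa using this.tendsto 0
  have h2 : (fun ζ : ℂ => f (z + ζ • v)) =ᶠ[𝓝 0] fun ζ : ℂ => g (z + ζ • v) := h1.eventually h
  exact (InnerProductSpace.laplacian_congr_nhds h2).eq_of_nhds

lemma cd_line {f : E → ℝ} {z : E} (h : ContDiffAt ℝ 2 f z) (v : E) :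
    ContDiffAt ℝ 2 (fun ζ : ℂ => f (z + ζ • v)) 0 := by
  have h1 : ContDiffAt ℝ 2 (fun ζ : ℂ => z + ζ • v) 0 := by fun_prop
  exact ContDiffAt.comp (0 : ℂ) (by simpa using h) h1

lemma lev_add {f g : E → ℝ} {z : E} (hf : ContDiffAt ℝ 2 f z) (hg : ContDiffAt ℝ 2 g z) (v : E) :
    lev (fun t => f t + g t) z v = lev f z v + lev g z v :=
  ContDiffAt.laplacian_add (cd_line hf v) (cd_line hg v)

lemma lev_sub {f g : E → ℝ} {z : E} (hf : ContDiffAt ℝ 2 f z) (hg : ContDiffAt ℝ 2 g z) (v : E) :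
    lev (fun t => f t - g t) z v = lev f z v - lev g z v :=
  ContDiffAt.laplacian_sub (cd_line hf v) (cd_line hg v)

lemma lev_mul {f : E → ℝ} {z : E} (hf : ContDiffAt ℝ 2 f z) (a : ℝ) (v : E) :
    lev (fun t => a * f t) z v = a * lev f z v :=
  InnerProductSpace.laplacian_smul a (cd_line hf v)

lemma lev_neg {f : E → ℝ} {z : E} (v : E) :
    lev (fun t => - f t) z v = - lev f z v := by
  unfold lev
  have : (fun ζ : ℂ => - f (z + ζ • v)) = - (fun ζ : ℂ => f (z + ζ • v)) := rfl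
  rw [this, InnerProductSpace.laplacian_neg]
  rfl

lemma lev_eq {ρ : E → ℝ} {z : E} (h : ContDiffAt ℝ 2 ρ z) (v : E) : lev ρ z v =
    fderiv ℝ (fderiv ℝ ρ) z v v + fderiv ℝ (fderiv ℝ ρ) z (Complex.I • v) (Complex.I • v) := by
  have h1 : AnalyticAt ℂ (fun ζ : ℂ => z + ζ • v) 0 := by fun_prop
  have h2 : deriv (fun ζ : ℂ => z + ζ • v) 0 = v := by
    have : HasDerivAt (fun ζ : ℂ => z + ζ • v) ((1 : ℂ) • v) 0 :=
      ((hasDerivAt_id (0 : ℂ)).smul_const v).const_add z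
    rw [this.deriv, one_smul]
  have h3 := lap_comp (ρ := ρ) (γ := fun ζ : ℂ => z + ζ • v) (by simpa using h) h1
  rw [h2] at h3
  simp only [zero_smul, add_zero] at h3
  exact h3

lemma lev_comp {ρ : E → ℝ} {T : E → E} {z v T' : E} (hρ : ContDiffAt ℝ 2 ρ (T z))
    (hT : AnalyticAt ℂ T z) (hT' : HasDerivAt (fun ζ : ℂ => T (z + ζ • v)) T' 0) :
    lev (fun t => ρ (T t)) z v = lev ρ (T z) T' := by
  have h1 : AnalyticAt ℂ (fun ζ : ℂ => T (z + ζ • v)) 0 := by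
    have h2 : AnalyticAt ℂ (fun ζ : ℂ => z + ζ • v) 0 := by fun_prop
    exact AnalyticAt.comp (g := T) (by simpa using hT) h2
  have h3 := lap_comp (ρ := ρ) (γ := fun ζ : ℂ => T (z + ζ • v)) (by simpa using hρ) h1
  rw [hT'.deriv] at h3
  rw [lev_eq hρ]
  simpa [lev] using h3

lemma lev_h {h : ℂ → ℝ} {q : E → ℂ} {z v : E} {q' : ℂ} (hh : ContDiffAt ℝ 2 h (q z))
    (hq : AnalyticAt ℂ q z) (hq' : HasDerivAt (fun ζ : ℂ => q (z + ζ • v)) q' 0) :
    lev (fun t => h (q t)) z v = Laplacian.laplacian h (q z) * ‖q'‖ ^ 2 := by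
  have h1 : AnalyticAt ℂ (fun ζ : ℂ => q (z + ζ • v)) 0 := by
    have h2 : AnalyticAt ℂ (fun ζ : ℂ => z + ζ • v) 0 := by fun_prop
    exact AnalyticAt.comp (g := q) (by simpa using hq) h2
  have h3 := lap_comp (ρ := h) (γ := fun ζ : ℂ => q (z + ζ • v)) (by simpa using hh) h1
  rw [hq'.deriv] at h3
  simp only [zero_smul, add_zero] at h3
  rw [lap_eq]
  unfold lev
  rw [h3]
  set B := fderiv ℝ (fderiv ℝ h) (q z)
  have e1 : q' = q'.re • (1 : ℂ) + q'.im • Complex.I := by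
    apply Complex.ext <;> simp
  have e2 : Complex.I • q' = (-q'.im) • (1 : ℂ) + q'.re • Complex.I := by
    apply Complex.ext <;> simp
  rw [e2, Complex.sq_norm, Complex.normSq_apply]
  nth_rewrite 1 [e1]
  nth_rewrite 3 [e1]
  simp only [map_add, map_smul, ContinuousLinearMap.add_apply, ContinuousLinearMap.smul_apply,
    smul_eq_mul]
  ring

lemma hasDerivAt_nsq {F : ℝ → ℂ} {F' : ℂ} {s : ℝ} (h : HasDerivAt F F' s) :
    HasDerivAt (fun s => ‖F s‖ ^ 2) (2 * (conj (F s) * F').re) s := by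
  have h1 : HasDerivAt (fun s => (F s).re) F'.re s :=
    Complex.reCLM.hasFDerivAt.comp_hasDerivAt s h
  have h2 : HasDerivAt (fun s => (F s).im) F'.im s :=
    Complex.imCLM.hasFDerivAt.comp_hasDerivAt s h
  have h3 := (h1.mul h1).add (h2.mul h2)
  have h4 : (fun s => ‖F s‖ ^ 2) = fun s => (F s).re * (F s).re + (F s).im * (F s).im := by
    funext s; rw [Complex.sq_norm, Complex.normSq_apply]
  rw [h4]
  refine HasDerivAt.congr_deriv h3 ?_
  simp [Complex.mul_re]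
  ring

lemma cd_logsum {F : Type} [NormedAddCommGroup F] [NormedSpace ℂ F] [NormedSpace ℝ F]
    [IsScalarTower ℝ ℂ F] {f g : F → ℂ} {z : F} (hf : AnalyticAt ℂ f z)
    (hg : AnalyticAt ℂ g z) (h0 : f z ≠ 0 ∨ g z ≠ 0) :
    ContDiffAt ℝ ∞ (fun t => Real.log (‖f t‖ ^ 2 + ‖g t‖ ^ 2)) z := by
  have h1 : ContDiffAt ℝ ∞ f z := (hf.contDiffAt (n := ∞)).restrict_scalars ℝ
  have h2 : ContDiffAt ℝ ∞ g z := (hg.contDiffAt (n := ∞)).restrict_scalars ℝ
  refine ContDiffAt.log ((h1.norm_sq ℝ).add (h2.norm_sq ℝ)) ?_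
  have : 0 < ‖f z‖ ^ 2 + ‖g z‖ ^ 2 := by
    rcases h0 with h | h
    · have := norm_pos_iff.2 h; positivity
    · have := norm_pos_iff.2 h; positivity
  exact this.ne'

/-- the Laplacian of the logarithm of a sum of two squares -/
lemma lap_logsum {F G : ℂ → ℂ} (hF : AnalyticAt ℂ F 0) (hG : AnalyticAt ℂ G 0)
    (h0 : F 0 ≠ 0 ∨ G 0 ≠ 0) :
    Laplacian.laplacian (fun ζ => Real.log (‖F ζ‖ ^ 2 + ‖G ζ‖ ^ 2)) 0 =
      4 * ‖F 0 * deriv G 0 - G 0 * deriv F 0‖ ^ 2 / (‖F 0‖ ^ 2 + ‖G 0‖ ^ 2) ^ 2 := by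
  have hpos : 0 < ‖F 0‖ ^ 2 + ‖G 0‖ ^ 2 := by
    rcases h0 with h | h
    · have := norm_pos_iff.2 h; positivity
    · have := norm_pos_iff.2 h; positivity
  have hL : ContDiffAt ℝ 2 (fun ζ => Real.log (‖F ζ‖ ^ 2 + ‖G ζ‖ ^ 2)) 0 :=
    (cd_logsum hF hG h0).of_le ENat.LEInfty.out
  have key : ∀ e : ℂ, fderiv ℝ (fderiv ℝ (fun ζ => Real.log (‖F ζ‖ ^ 2 + ‖G ζ‖ ^ 2))) 0 e e =
      ((2 * (conj (deriv F 0 * e) * (deriv F 0 * e) + conj (F 0) * (deriv (deriv F) 0 * e * e)).re +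
        2 * (conj (deriv G 0 * e) * (deriv G 0 * e) + conj (G 0) * (deriv (deriv G) 0 * e * e)).re)
        * (‖F 0‖ ^ 2 + ‖G 0‖ ^ 2) -
      (2 * (conj (F 0) * (deriv F 0 * e)).re + 2 * (conj (G 0) * (deriv G 0 * e)).re) *
      (2 * (conj (F 0) * (deriv F 0 * e)).re + 2 * (conj (G 0) * (deriv G 0 * e)).re))
        / (‖F 0‖ ^ 2 + ‖G 0‖ ^ 2) ^ 2 := by
    intro e
    have hline : ∀ t : ℝ, HasDerivAt (fun s : ℝ => (s : ℂ) * e) e t := by
      intro t
      simpa using (Complex.ofRealCLM.hasDerivAt (x := t)).mul_const e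
    have ht0 : Tendsto (fun s : ℝ => (s : ℂ) * e) (𝓝 0) (𝓝 (0 : ℂ)) := by
      have := (hline 0).continuousAt.tendsto
      simpa using this
    have h00 : ((0 : ℝ) : ℂ) * e = 0 := by simp
    have hcurve : ∀ (g : ℂ → ℂ) (t : ℝ), AnalyticAt ℂ g ((t : ℂ) * e) →
        HasDerivAt (fun s : ℝ => g ((s : ℂ) * e)) (deriv g ((t : ℂ) * e) * e) t := by
      intro g t hg
      exact hg.differentiableAt.hasDerivAt.comp t (hline t)
    have hN : ∀ t : ℝ, AnalyticAt ℂ F ((t : ℂ) * e) → AnalyticAt ℂ G ((t : ℂ) * e) →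
        HasDerivAt (fun s : ℝ => ‖F ((s : ℂ) * e)‖ ^ 2 + ‖G ((s : ℂ) * e)‖ ^ 2)
        (2 * (conj (F ((t : ℂ) * e)) * (deriv F ((t : ℂ) * e) * e)).re +
          2 * (conj (G ((t : ℂ) * e)) * (deriv G ((t : ℂ) * e) * e)).re) t := by
      intro t h1 h2
      exact (hasDerivAt_nsq (hcurve F t h1)).add (hasDerivAt_nsq (hcurve G t h2))
    have hN' : ∀ (g : ℂ → ℂ), AnalyticAt ℂ g 0 →
        HasDerivAt (fun s : ℝ => 2 * (conj (g ((s : ℂ) * e)) * (deriv g ((s : ℂ) * e) * e)).re)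
        (2 * (conj (deriv g 0 * e) * (deriv g 0 * e) + conj (g 0) * (deriv (deriv g) 0 * e * e)).re)
        0 := by
      intro g hg
      have h1 := hcurve g 0 (by rw [h00]; exact hg)
      have h2 := (hcurve (deriv g) 0 (by rw [h00]; exact hg.deriv)).mul_const e
      have h3 : HasDerivAt (fun s : ℝ => conj (g ((s : ℂ) * e)))
          (conj (deriv g ((0 : ℝ) * e) * e)) 0 :=
        Complex.conjCLE.hasFDerivAt.comp_hasDerivAt (0 : ℝ) h1
      have h4 := h3.mul h2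
      have h5 : HasDerivAt (fun s : ℝ => (conj (g ((s : ℂ) * e)) *
          (deriv g ((s : ℂ) * e) * e)).re) _ 0 :=
        Complex.reCLM.hasFDerivAt.comp_hasDerivAt (0 : ℝ) h4
      refine (h5.const_mul 2).congr_deriv ?_
      simp only [h00]
      rfl
    have hpos' : ∀ᶠ t : ℝ in 𝓝 0, 0 < ‖F ((t : ℂ) * e)‖ ^ 2 + ‖G ((t : ℂ) * e)‖ ^ 2 := by
      have h1 := (hN 0 (by rw [h00]; exact hF) (by rw [h00]; exact hG)).continuousAt
      have h2 := h1.tendsto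
      rw [h00] at h2
      exact h2.eventually (lt_mem_nhds hpos)
    refine d2_line hL e (ψ := fun t =>
      (2 * (conj (F ((t : ℂ) * e)) * (deriv F ((t : ℂ) * e) * e)).re +
          2 * (conj (G ((t : ℂ) * e)) * (deriv G ((t : ℂ) * e) * e)).re) /
        (‖F ((t : ℂ) * e)‖ ^ 2 + ‖G ((t : ℂ) * e)‖ ^ 2)) ?_ ?_
    · filter_upwards [ht0.eventually hF.eventually_analyticAt,
        ht0.eventually hG.eventually_analyticAt, hpos'] with t h1 h2 h3
      exact (hN t h1 h2).log h3.ne'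
    · have h1 := (hN' F hF).add (hN' G hG)
      have h2 := hN 0 (by rw [h00]; exact hF) (by rw [h00]; exact hG)
      have h3 := h1.div h2 (by rw [h00]; exact hpos.ne')
      refine h3.congr_deriv ?_
      simp only [h00, Pi.add_apply]
  rw [lap_eq, key, key, ← add_div]
  congr 1
  simp only [Complex.sq_norm, Complex.normSq_apply, Complex.mul_re, Complex.mul_im,
    Complex.add_re, Complex.sub_re, Complex.sub_im, Complex.conj_re, Complex.conj_im,
    Complex.one_re, Complex.one_im, Complex.I_re, Complex.I_im]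
  ring

lemma lev_logsum {f g : E → ℂ} {z v : E} {f' g' : ℂ} (hf : AnalyticAt ℂ f z)
    (hg : AnalyticAt ℂ g z) (h0 : f z ≠ 0 ∨ g z ≠ 0)
    (hf' : HasDerivAt (fun ζ : ℂ => f (z + ζ • v)) f' 0)
    (hg' : HasDerivAt (fun ζ : ℂ => g (z + ζ • v)) g' 0) :
    lev (fun t => Real.log (‖f t‖ ^ 2 + ‖g t‖ ^ 2)) z v =
      4 * ‖f z * g' - g z * f'‖ ^ 2 / (‖f z‖ ^ 2 + ‖g z‖ ^ 2) ^ 2 := by
  have hl : AnalyticAt ℂ (fun ζ : ℂ => z + ζ • v) 0 := by fun_prop
  have h1 : AnalyticAt ℂ (fun ζ : ℂ => f (z + ζ • v)) 0 :=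
    AnalyticAt.comp (g := f) (by simpa using hf) hl
  have h2 : AnalyticAt ℂ (fun ζ : ℂ => g (z + ζ • v)) 0 :=
    AnalyticAt.comp (g := g) (by simpa using hg) hl
  have h3 := lap_logsum h1 h2 (by simpa using h0)
  rw [hf'.deriv, hg'.deriv] at h3
  simpa [lev] using h3

lemma lev_log {f : E → ℂ} {z v : E} (hf : AnalyticAt ℂ f z) (h0 : f z ≠ 0) :
    lev (fun t => Real.log (‖f t‖ ^ 2)) z v = 0 := by
  have hl : AnalyticAt ℂ (fun ζ : ℂ => z + ζ • v) 0 := by fun_prop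
  have h1 : AnalyticAt ℂ (fun ζ : ℂ => f (z + ζ • v)) 0 :=
    AnalyticAt.comp (g := f) (by simpa using hf) hl
  have h3 := lev_logsum (g := fun _ => 0) (v := v) hf analyticAt_const (Or.inl h0)
    h1.differentiableAt.hasDerivAt (g' := 0) (hasDerivAt_const _ _)
  simpa using h3

lemma cd_log {f : E → ℂ} {z : E} (hf : AnalyticAt ℂ f z) (h0 : f z ≠ 0) :
    ContDiffAt ℝ ∞ (fun t => Real.log (‖f t‖ ^ 2)) z := by
  have := cd_logsum (g := fun _ => 0) hf analyticAt_const (Or.inl h0)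
  simpa using this

/-- the Levi form of `log (1 + |f|²)` -/
lemma lev_log1 {f : E → ℂ} {z v : E} {f' : ℂ} (hf : AnalyticAt ℂ f z)
    (hf' : HasDerivAt (fun ζ : ℂ => f (z + ζ • v)) f' 0) :
    lev (fun t => Real.log (1 + ‖f t‖ ^ 2)) z v = 4 * ‖f'‖ ^ 2 / (1 + ‖f z‖ ^ 2) ^ 2 := by
  have h3 := lev_logsum (f := fun _ => 1) (v := v) analyticAt_const hf (Or.inl one_ne_zero)
    (f' := 0) (hasDerivAt_const _ _) hf'
  simpa using h3

lemma cd_log1 {f : E → ℂ} {z : E} (hf : AnalyticAt ℂ f z) :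
    ContDiffAt ℝ ∞ (fun t => Real.log (1 + ‖f t‖ ^ 2)) z := by
  have := cd_logsum (f := fun _ => 1) analyticAt_const hf (Or.inl one_ne_zero)
  simpa using this

end Pool.Agent.Y304.SP
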